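import Pool.Agent.Work.MP_7453a1_nt_h45.Four
import Pool.Agent.Work.MP_7453a1_nt_norm.Frame

set_option autoImplicit false

/-!
Exceptional steps of best approximation sequences for an arbitrary norm on the plane.
-/

namespace Pool.Agent.Work.MP_7453a1_nt_h45

open Pool.Agent.Work.MP_7453a1_nt_norm Filter
open scoped ENNReal

variable {N : Seminorm ℝ V} {Θ : V} {z : ℕ → Pt 2}

/-- A sequence of best approximation points. -/
structure IsFrame (N : Seminorm ℝ V) (Θ : V) (z : ℕ → Pt 2) : Prop where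
  pos : ∀ k, 0 < (z k).1
  mono : ∀ k l, k < l → (z k).1 < (z l).1
  anti : ∀ k l, k < l → er N Θ (z l) < er N Θ (z k)
  excl : ∀ (k : ℕ) (w : Pt 2), w ≠ 0 → |w.1| < (z (k + 1)).1 → er N Θ (z k) ≤ er N Θ w

namespace IsFrame

/-- `F2`: if `M_m < M_i + M_{i+1}` and `i < j < l < m` then `z_i + z_m = z_j + z_l`. -/
theorem exceptional (h : IsFrame N Θ z) {i j l m : ℕ} (hij : i < j) (hjl : j < l) (hlm : l < m)
    (hM : (z m).1 < (z i).1 + (z (i + 1)).1) : z i + z m = z j + z l := by
  have m1 := h.mono i j hij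
  have m2 := h.mono j l hjl
  have m3 := h.mono l m hlm
  have m4 : (z (i + 1)).1 ≤ (z j).1 := by
    rcases (show i + 1 ≤ j by omega).lt_or_eq with h1 | h1
    · exact (h.mono _ _ h1).le
    · rw [h1]
  have hd : ∀ a b : ℕ, i ≤ a → a < b → b ≤ m →
      N (ev Θ (z i)) ≤ N (ev Θ (z a) - ev Θ (z b)) := by
    intro a b ha hab hb
    have h1 := h.mono a b hab
    have h2 : (z i).1 ≤ (z a).1 := by
      rcases ha.lt_or_eq with h3 | h3
      · exact (h.mono _ _ h3).le
      · rw [h3]
    have h3 : (z b).1 ≤ (z m).1 := by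
      rcases hb.lt_or_eq with h3 | h3
      · exact (h.mono _ _ h3).le
      · rw [h3]
    have := h.excl i (z a - z b) (by
      intro h0
      have : (z a - z b).1 = 0 := by rw [h0]; rfl
      simp only [Prod.fst_sub] at this
      omega) (by simp only [Prod.fst_sub]; rw [abs_lt]; constructor <;> omega)
    unfold er at this
    rwa [map_sub (ev Θ)] at this
  rcases three_sums (h.anti i j hij) (h.anti j l hjl) (h.anti l m hlm)
    (hd i j le_rfl hij (by omega)) (hd i l le_rfl (by omega) (by omega))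
    (hd i m le_rfl (by omega) le_rfl) (hd j l hij.le hjl (by omega))
    (hd j m hij.le (by omega) le_rfl) (hd l m (by omega) hlm le_rfl) with H | H | H
  · by_contra hcon
    have h1 : z i + z m - z j - z l ≠ 0 := by
      intro h0; apply hcon
      rw [sub_sub, sub_eq_zero] at h0; exact h0
    have h2 := h.excl i (z i + z m - z j - z l) h1 (by
      simp only [Prod.fst_sub, Prod.fst_add]; rw [abs_lt]; constructor <;> omega)
    have h3 : er N Θ (z i + z m - z j - z l)
        = N (ev Θ (z i) + ev Θ (z m) - ev Θ (z j) - ev Θ (z l)) := by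
      unfold er; rw [map_sub (ev Θ), map_sub (ev Θ), map_add (ev Θ)]
    have h4 := h.anti i j hij
    rw [h3] at h2
    unfold er at h2 h4
    linarith
  · exfalso
    have h1 : z i + z l - z j - z m ≠ 0 := by
      intro h0
      have : (z i + z l - z j - z m).1 = 0 := by rw [h0]; rfl
      simp only [Prod.fst_sub, Prod.fst_add] at this
      omega
    have h2 := h.excl i (z i + z l - z j - z m) h1 (by
      simp only [Prod.fst_sub, Prod.fst_add]; rw [abs_lt]; constructor <;> omega)
    have h3 : er N Θ (z i + z l - z j - z m)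
        = N (ev Θ (z i) + ev Θ (z l) - ev Θ (z j) - ev Θ (z m)) := by
      unfold er; rw [map_sub (ev Θ), map_sub (ev Θ), map_add (ev Θ)]
    have h4 := h.anti i j hij
    rw [h3] at h2
    unfold er at h2 h4
    linarith
  · exfalso
    have h1 : z i + z j - z l - z m ≠ 0 := by
      intro h0
      have : (z i + z j - z l - z m).1 = 0 := by rw [h0]; rfl
      simp only [Prod.fst_sub, Prod.fst_add] at this
      omega
    obtain ⟨l', rfl⟩ : ∃ l', l = l' + 1 := ⟨l - 1, by omega⟩
    have h2 := h.excl l' (z i + z j - z (l' + 1) - z m) h1 (by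
      simp only [Prod.fst_sub, Prod.fst_add]; rw [abs_lt]; constructor <;> omega)
    have h3 : er N Θ (z i + z j - z (l' + 1) - z m)
        = N (ev Θ (z i) + ev Θ (z j) - ev Θ (z (l' + 1)) - ev Θ (z m)) := by
      unfold er; rw [map_sub (ev Θ), map_sub (ev Θ), map_add (ev Θ)]
    have h4 := h.anti l' (l' + 1) (by omega)
    rw [h3] at h2
    unfold er at h2 h4
    linarith

/-- Two consecutive exceptional steps are impossible. -/
theorem no_two (h : IsFrame N Θ z) (i : ℕ) (hM : (z (i + 3)).1 < (z i).1 + (z (i + 1)).1) :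
    (z (i + 1)).1 + (z (i + 2)).1 ≤ (z (i + 4)).1 := by
  by_contra hcon
  push Not at hcon
  have e1 := h.exceptional (i := i) (j := i + 1) (l := i + 2) (m := i + 3) (by omega) (by omega)
    (by omega) hM
  have e2 := h.exceptional (i := i + 1) (j := i + 2) (l := i + 3) (m := i + 4) (by omega)
    (by omega) (by omega) hcon
  have e3 : z (i + 4) - z i = z (i + 2) - z i + (z (i + 2) - z i) := by
    have h1 : z (i + 3) = z (i + 1) + z (i + 2) - z i := by rw [← e1]; abel
    have h2 : z (i + 4) = z (i + 2) + z (i + 3) - z (i + 1) := by rw [← e2]; abel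
    rw [h2, h1]; abel
  have m1 := h.mono i (i + 1) (by omega)
  have m2 := h.mono (i + 1) (i + 2) (by omega)
  have m3 := h.mono (i + 2) (i + 3) (by omega)
  have q1 : (z i).1 + (z (i + 3)).1 = (z (i + 1)).1 + (z (i + 2)).1 := congrArg Prod.fst e1
  have h1 := h.excl i (z (i + 2) - z i) (by
    intro h0
    have : (z (i + 2) - z i).1 = 0 := by rw [h0]; rfl
    simp only [Prod.fst_sub] at this
    omega) (by simp only [Prod.fst_sub]; rw [abs_lt]; constructor <;> omega)
  have h2 : er N Θ (z (i + 4) - z i) = 2 * er N Θ (z (i + 2) - z i) := by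
    rw [e3]
    unfold er
    rw [map_add (ev Θ), ← two_smul ℝ, map_smul_eq_mul]
    norm_num
  have h3 := er_sub_le (N := N) (Θ := Θ) (z (i + 4)) (z i)
  have h4 := h.anti i (i + 4) (by omega)
  linarith

/-- `F1`: `M_{i+4} ≥ M_{i+2} + M_i` for every norm on the plane. -/
theorem four (h : IsFrame N Θ z) (i : ℕ) : (z i).1 + (z (i + 2)).1 ≤ (z (i + 4)).1 := by
  have m1 := h.mono i (i + 1) (by omega)
  rcases le_or_gt ((z (i + 1)).1 + (z (i + 2)).1) (z (i + 4)).1 with h1 | h1
  · omega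
  · have e2 := h.exceptional (i := i + 1) (j := i + 2) (l := i + 3) (m := i + 4) (by omega)
      (by omega) (by omega) h1
    have q2 : (z (i + 1)).1 + (z (i + 4)).1 = (z (i + 2)).1 + (z (i + 3)).1 :=
      congrArg Prod.fst e2
    have h2 : (z i).1 + (z (i + 1)).1 ≤ (z (i + 3)).1 := by
      by_contra hcon
      push Not at hcon
      have := h.no_two i hcon
      omega
    omega

end IsFrame

/-- Existence of the sequence, with the denominators of large index. -/
theorem exists_frame (hN : IsNorm N) (hΘ : Admissible Θ) : ∃ (ν₀ : ℕ) (z : ℕ → Pt 2),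
    1 ≤ ν₀ ∧ (∀ k, (z k).1 = M N Θ (ν₀ + k)) ∧ IsFrame N Θ z := by
  obtain ⟨ν₀, z, h0, h1, h2, h3, h4, _, h6⟩ := frame hN hΘ
  exact ⟨ν₀, z, h0, h1, ⟨h2, h3, h4, h6⟩⟩

/-- A linear recursion with nonnegative coefficients of window `d` gives growth: if
`t > 0` and `a k ≥ t ^ k * c` propagates, then `t ≤ G`. -/
theorem le_G_of_step (hN : IsNorm N) (hΘ : Admissible Θ) {t : ℝ} (ht : 1 ≤ t) (d : ℕ)
    (h : ∀ z : ℕ → Pt 2, IsFrame N Θ z → ∀ (c : ℝ) (k : ℕ), 0 < c → d ≤ k →
      (∀ j, j < k → c * t ^ j ≤ ((z j).1 : ℝ)) → c * t ^ k ≤ ((z k).1 : ℝ)) :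
    ENNReal.ofReal t ≤ G N Θ := by
  obtain ⟨ν₀, z, h0, h1, hz⟩ := exists_frame hN hΘ
  have ht0 : 0 < t := by linarith
  have key : ∀ k, (t ^ d)⁻¹ * t ^ k ≤ ((z k).1 : ℝ) := by
    intro k
    induction k using Nat.strong_induction_on with
    | _ k ih =>
      rcases lt_or_ge k d with hk | hk
      · have h2 : (1 : ℝ) ≤ ((z k).1 : ℝ) := by exact_mod_cast hz.pos k
        have h3 : t ^ k ≤ t ^ d := pow_le_pow_right₀ ht hk.le
        have h4 : (t ^ d)⁻¹ * t ^ k ≤ 1 := by
          rw [inv_mul_le_iff₀ (by positivity)]; linarith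
        linarith
      · exact h z hz _ k (by positivity) hk ih
  refine le_G_of_growth ht0 (c := (t ^ (d + ν₀))⁻¹) (by positivity) ?_
  filter_upwards [eventually_ge_atTop ν₀] with ν hν
  obtain ⟨k, rfl⟩ : ∃ k, ν = ν₀ + k := ⟨ν - ν₀, by omega⟩
  have h2 := key k
  have h3 : ((z k).1 : ℝ) = (M N Θ (ν₀ + k) : ℝ) := by rw [h1 k]; simp
  rw [h3] at h2
  refine le_trans (le_of_eq ?_) h2
  rw [pow_add, pow_add]
  field_simp

/-- For every norm on the plane and every `Θ` satisfying (∗), `G(Θ) ≥ t` where `t⁴ = t² + 1`. -/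
theorem base (hN : IsNorm N) (hΘ : Admissible Θ) {t : ℝ} (ht : 1 ≤ t) (ht4 : t ^ 4 = t ^ 2 + 1) :
    ENNReal.ofReal t ≤ G N Θ := by
  refine le_G_of_step hN hΘ ht 4 fun z hz c k hc hk ih => ?_
  obtain ⟨i, rfl⟩ : ∃ i, k = i + 4 := ⟨k - 4, by omega⟩
  have h1 : ((z i).1 : ℝ) + ((z (i + 2)).1 : ℝ) ≤ ((z (i + 4)).1 : ℝ) := by
    exact_mod_cast hz.four i
  have h2 := ih i (by omega)
  have h3 := ih (i + 2) (by omega)
  have h4 : c * t ^ (i + 4) = c * t ^ i + c * t ^ (i + 2) := by
    rw [pow_add, pow_add, ht4]; ring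
  linarith

end Pool.Agent.Work.MP_7453a1_nt_h45
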