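import Pool.Agent.Work.MP_7453a1_nt_h63.Rows

set_option autoImplicit false

/-!
Two comparison lemmas for normed planes, and the classes modulo two of integer points.
-/

namespace Pool.Agent.Work.MP_7453a1_nt_h45

open Pool.Agent.Work.MP_7453a1_nt_h63

variable {N : Seminorm ℝ V}

lemma N_comb (p q : ℝ) (x y : V) : N (p • x + q • y) ≤ |p| * N x + |q| * N y := by
  refine (map_add_le_add N _ _).trans ?_
  rw [N_smul, N_smul]

/-- `c v = p x + q y`. -/
lemma N_hull {c : ℝ} (p q : ℝ) {v x y : V} (hc : 0 ≤ c) (h : c • v = p • x + q • y) :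
    c * N v ≤ |p| * N x + |q| * N y := by
  have := N_comb (N := N) p q x y
  rwa [← h, N_smul, abs_of_nonneg hc] at this

lemma exists_smul_of_det {x c : V} (hx : x ≠ 0) (hc : det x c = 0) : ∃ t : ℝ, c = t • x := by
  have h6 : x 0 ≠ 0 ∨ x 1 ≠ 0 := by
    by_contra hcon
    push Not at hcon
    exact hx (by ext i; fin_cases i <;> simp [hcon.1, hcon.2])
  unfold det at hc
  rcases h6 with h6 | h6
  · refine ⟨c 0 / x 0, ?_⟩
    ext i; fin_cases i
    · simp; field_simp
    · simp; field_simp; linarith
  · refine ⟨c 1 / x 1, ?_⟩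
    ext i; fin_cases i
    · simp; field_simp; linarith
    · simp; field_simp

/-- The main case of the comparison lemma. -/
lemma cmp_core {a u w : V} {r α β : ℝ} (hα : 0 ≤ α) (hβ : 0 ≤ β) (hu : u = α • a + β • w)
    (hau : N a ≤ N u) (h1 : N (w + u) < r) (h2 : N (w - u) < r) : N (w + a) < r := by
  have ha := apply_nonneg N a
  rcases le_or_gt α 1 with hα1 | hα1
  · rcases le_or_gt α β with hab | hab
    · rcases hβ.eq_or_lt with hβ0 | hβ0
      · have hα0 : α = 0 := by linarith
        rw [← hβ0, hα0, zero_smul, zero_smul, add_zero] at hu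
        rw [hu, map_zero] at hau
        rw [hu, add_zero] at h1
        have := map_add_le_add N w a
        linarith
      · have e1 := N_hull (N := N) (c := β) (v := w + a) (β - α) 1 (x := a) (y := u) hβ
          (by rw [hu]; module)
        have e2 : (β + 1) * N u ≤ β * N (w + u) + α * N a := by
          have := N_hull (N := N) (c := β + 1) (v := u) β α (x := w + u) (y := a) (by linarith)
            (by rw [hu]; module)
          rwa [abs_of_nonneg hβ, abs_of_nonneg hα] at this
        rw [abs_of_nonneg (a := β - α) (by linarith), abs_one, one_mul] at e1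
        have e3 : β * N (w + a) ≤ β * N (w + u) := by
          have h3 : (β - α) * N a ≤ (β - α) * N u := mul_le_mul_of_nonneg_left hau (by linarith)
          have h4 : α * N a ≤ α * N u := mul_le_mul_of_nonneg_left hau hα
          nlinarith
        exact lt_of_le_of_lt (le_of_mul_le_mul_left e3 hβ0) h1
    · have e1 := N_hull (N := N) (c := 1) (v := u) (α - β) β (x := a) (y := w + a) zero_le_one
          (by rw [hu]; module)
      have e2 := N_hull (N := N) (c := 1 + β) (v := w + a) 1 (1 + β - α) (x := w + u) (y := a)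
          (by linarith) (by rw [hu]; module)
      rw [abs_of_nonneg (a := α - β) (by linarith), abs_of_nonneg hβ, one_mul] at e1
      rw [abs_of_nonneg (a := 1 + β - α) (by linarith), abs_one, one_mul] at e2
      nlinarith
  · rcases le_or_gt β (2 * α) with hb | hb
    · have e1 := N_hull (N := N) (c := 2 * α) (v := w + a) (α - β + 1) (α - β - 1) (x := w + u)
        (y := w - u) (by linarith) (by rw [hu]; module)
      have hr : 0 < r := lt_of_le_of_lt (apply_nonneg N _) h1
      have e2 : |α - β + 1| + |α - β - 1| ≤ 2 * α := by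
        rcases abs_cases (α - β + 1) with ⟨h3, _⟩ | ⟨h3, _⟩ <;>
          rcases abs_cases (α - β - 1) with ⟨h4, _⟩ | ⟨h4, _⟩ <;> rw [h3, h4] <;> linarith
      have e3 : |α - β + 1| * N (w + u) + |α - β - 1| * N (w - u)
          < (|α - β + 1| + |α - β - 1|) * r := by
        by_cases h5 : α - β + 1 = 0
        · have h6 : 0 < |α - β - 1| := abs_pos.mpr (by intro h7; linarith)
          rw [h5, abs_zero, zero_mul, zero_add, zero_add]
          exact mul_lt_mul_of_pos_left h2 h6
        · have h6 : 0 < |α - β + 1| := abs_pos.mpr h5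
          have h7 := mul_lt_mul_of_pos_left h1 h6
          have h8 := mul_le_mul_of_nonneg_left h2.le (abs_nonneg (α - β - 1))
          linarith
      have e4 : (|α - β + 1| + |α - β - 1|) * r ≤ 2 * α * r :=
        mul_le_mul_of_nonneg_right e2 hr.le
      have e5 : 2 * α * N (w + a) < 2 * α * r := by linarith
      exact lt_of_mul_lt_mul_left e5 (by linarith)
    · have hs : 0 < β - 1 := by linarith
      have e1 := N_hull (N := N) (c := β - 1) (v := w + a) (β - 1 - α) (-1) (x := a) (y := w - u)
        hs.le (by rw [hu]; module)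
      rw [abs_of_nonneg (a := β - 1 - α) (by linarith), abs_neg, abs_one, one_mul] at e1
      have e2 := N_hull (N := N) (c := 2) (v := u) 1 (-1) (x := w + u) (y := w - u)
        (by norm_num) (by module)
      rw [abs_neg, abs_one, one_mul, one_mul] at e2
      have e3 : (β - 1 - α) * N a ≤ (β - 1 - α) * r :=
        mul_le_mul_of_nonneg_left (by linarith) (by linarith)
      have hr : 0 < r := lt_of_le_of_lt (apply_nonneg N _) h1
      have e5 : (β - 1) * N (w + a) < (β - 1) * r := by nlinarith
      exact lt_of_mul_lt_mul_left e5 hs.le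

/-- The comparison lemma: if `w ± u` are shorter than `r` and `N a ≤ N u`, then `w + a` or `w - a`
is shorter than `r`. -/
theorem cmp {a u w : V} {r : ℝ} (hau : N a ≤ N u) (h1 : N (w + u) < r) (h2 : N (w - u) < r) :
    N (w + a) < r ∨ N (w - a) < r := by
  have hNu : N u < r := by
    have e2 := N_hull (N := N) (c := 2) (v := u) 1 (-1) (x := w + u) (y := w - u)
      (by norm_num) (by module)
    rw [abs_neg, abs_one, one_mul, one_mul] at e2
    linarith
  have hNw : N w < r := by
    have e2 := N_hull (N := N) (c := 2) (v := w) 1 1 (x := w + u) (y := w - u)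
      (by norm_num) (by module)
    rw [abs_one, one_mul, one_mul] at e2
    linarith
  by_cases hd : det a w = 0
  · by_cases hw : w = 0
    · left; rw [hw, zero_add]; exact lt_of_le_of_lt hau hNu
    · obtain ⟨t, rfl⟩ := exists_smul_of_det hw (by rw [det_anti, hd, neg_zero])
      rw [N_smul] at hau
      have hw0 := apply_nonneg N w
      rcases le_total 0 t with ht | ht
      · right
        rw [show w - t • w = (1 - t) • w by module, N_smul]
        rw [abs_of_nonneg ht] at hau
        rcases abs_cases (1 - t) with ⟨h3, _⟩ | ⟨h3, _⟩ <;> rw [h3] <;> nlinarith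
      · left
        rw [show w + t • w = (1 + t) • w by module, N_smul]
        rw [abs_of_nonpos ht] at hau
        rcases abs_cases (1 + t) with ⟨h3, _⟩ | ⟨h3, _⟩ <;> rw [h3] <;> nlinarith
  · have hrel := det_rel a u w
    have hu : u = (det u w / det a w) • a + (det a u / det a w) • w := by
      have h3 : (det a w)⁻¹ • (det a w • u) = (det a w)⁻¹ • (det u w • a + det a u • w) := by
        rw [hrel]
      rw [smul_smul, inv_mul_cancel₀ hd, one_smul, smul_add, smul_smul, smul_smul] at h3
      rw [div_eq_inv_mul, div_eq_inv_mul]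
      exact h3
    set α := det u w / det a w
    set β := det a u / det a w
    rcases le_total 0 α with hα | hα <;> rcases le_total 0 β with hβ | hβ
    · left
      exact cmp_core hα hβ hu hau h1 h2
    · right
      have := cmp_core (N := N) (a := a) (u := u) (w := -w) (r := r) hα (neg_nonneg.mpr hβ)
        (by rw [smul_neg, neg_smul, neg_neg]; exact hu) hau
        (by rw [show -w + u = -(w - u) by abel, map_neg_eq_map]; exact h2)
        (by rw [show -w - u = -(w + u) by abel, map_neg_eq_map]; exact h1)
      rwa [show -w + a = -(w - a) by abel, map_neg_eq_map] at this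
    · right
      have := cmp_core (N := N) (a := -a) (u := u) (w := w) (r := r) (neg_nonneg.mpr hα) hβ
        (by rw [smul_neg, neg_smul, neg_neg]; exact hu) (by rwa [map_neg_eq_map]) h1 h2
      rwa [← sub_eq_add_neg] at this
    · left
      have := cmp_core (N := N) (a := -a) (u := u) (w := -w) (r := r) (neg_nonneg.mpr hα)
        (neg_nonneg.mpr hβ)
        (by rw [smul_neg, neg_smul, neg_neg, smul_neg, neg_smul, neg_neg]; exact hu)
        (by rwa [map_neg_eq_map])
        (by rw [show -w + u = -(w - u) by abel, map_neg_eq_map]; exact h2)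
        (by rw [show -w - u = -(w + u) by abel, map_neg_eq_map]; exact h1)
      rwa [show -w + -a = -(w + a) by abel, map_neg_eq_map] at this

lemma six_aux {a x y : V} {r α β : ℝ} (hα : 0 ≤ α) (hβ : 0 ≤ β) (hx : x = α • a + β • y)
    (hor : α ≤ 1 ∨ β ≤ 1) (na : N a < r) (nx : N x < r) (ny : N y < r)
    (h1 : r ≤ N (x - a)) (h2 : r ≤ N (x - y)) : False := by
  have pa := apply_nonneg N a
  have py := apply_nonneg N y
  have px := apply_nonneg N x
  have case1 : α ≤ 1 → β ≤ 1 → False := by
    intro ha hb
    have e1 := N_hull (N := N) (c := 1) (v := x - a) (-(1 - α)) β (x := a) (y := y) zero_le_one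
      (by rw [hx]; module)
    have e2 := N_hull (N := N) (c := 1) (v := x - y) α (-(1 - β)) (x := a) (y := y) zero_le_one
      (by rw [hx]; module)
    rw [abs_neg, abs_of_nonneg (a := 1 - α) (by linarith), abs_of_nonneg hβ, one_mul] at e1
    rw [abs_neg, abs_of_nonneg (a := 1 - β) (by linarith), abs_of_nonneg hα, one_mul] at e2
    linarith
  have case2 : 1 < α → β ≤ 1 → False := by
    intro ha hb
    have e1 := N_hull (N := N) (c := α) (v := x - a) (α - 1) β (x := x) (y := y) hα
      (by rw [hx]; module)
    rw [abs_of_nonneg (a := α - 1) (by linarith), abs_of_nonneg hβ] at e1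
    have e2 : (α - 1) * N x < (α - 1) * r := mul_lt_mul_of_pos_left nx (by linarith)
    have e3 : β * N y ≤ 1 * r := mul_le_mul hb ny.le py zero_le_one
    have e4 : α * r ≤ α * N (x - a) := mul_le_mul_of_nonneg_left h1 hα
    linarith
  have case3 : 1 < β → α ≤ 1 → False := by
    intro hb ha
    have e1 := N_hull (N := N) (c := β) (v := x - y) (β - 1) α (x := x) (y := a) hβ
      (by rw [hx]; module)
    rw [abs_of_nonneg (a := β - 1) (by linarith), abs_of_nonneg hα] at e1
    have e2 : (β - 1) * N x < (β - 1) * r := mul_lt_mul_of_pos_left nx (by linarith)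
    have e3 : α * N a ≤ 1 * r := mul_le_mul ha na.le pa zero_le_one
    have e4 : β * r ≤ β * N (x - y) := mul_le_mul_of_nonneg_left h2 hβ
    linarith
  rcases le_or_gt α 1 with ha | ha <;> rcases le_or_gt β 1 with hb | hb
  · exact case1 ha hb
  · exact case3 hb ha
  · exact case2 ha hb
  · rcases hor with h | h <;> linarith

/-- Six vectors `± a, ± x, ± y` shorter than `r` with all differences of length at least `r` do not
exist. -/
theorem six {a x y : V} {r : ℝ} (na : N a < r) (nx : N x < r) (ny : N y < r)
    (ax : r ≤ N (a + x)) (ax' : r ≤ N (a - x)) (ay : r ≤ N (a + y)) (ay' : r ≤ N (a - y))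
    (xy : r ≤ N (x + y)) (xy' : r ≤ N (x - y)) : False := by
  have core : ∀ a y : V, N a < r → N y < r → r ≤ N (a + x) → r ≤ N (a - x) → r ≤ N (a + y) →
      r ≤ N (a - y) → r ≤ N (x + y) → r ≤ N (x - y) → ∀ α β : ℝ, 0 ≤ α → 0 ≤ β →
      x = α • a + β • y → False := by
    intro a y na ny ax ax' ay ay' xy xy' α β hα hβ hx
    rcases le_or_gt α 1 with ha | ha
    · exact six_aux hα hβ hx (Or.inl ha) na nx ny (by rw [← map_neg_eq_map N]; simpa using ax') xy'
    rcases le_or_gt β 1 with hb | hb
    · exact six_aux hα hβ hx (Or.inr hb) na nx ny (by rw [← map_neg_eq_map N]; simpa using ax') xy'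
    have hβ0 : 0 < β := by linarith
    refine six_aux (N := N) (a := x) (x := y) (y := -a) (r := r) (α := β⁻¹) (β := β⁻¹ * α)
      (by positivity) (by positivity) ?_ (Or.inl (inv_le_one_of_one_le₀ hb.le)) nx ny
      (by rwa [map_neg_eq_map]) ?_ ?_
    · rw [hx]
      rw [smul_add, smul_smul, smul_smul, inv_mul_cancel₀ hβ0.ne', one_smul, smul_neg]
      abel
    · rw [show y - x = -(x - y) by abel, map_neg_eq_map]; exact xy'
    · rw [show y - -a = a + y by abel]; exact ay
  by_cases hd : det a y = 0
  · have hr : 0 < r := lt_of_le_of_lt (apply_nonneg N _) na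
    by_cases hy : y = 0
    · rw [hy, add_zero] at ay; linarith
    · obtain ⟨t, rfl⟩ := exists_smul_of_det hy (by rw [det_anti, hd, neg_zero])
      rw [N_smul] at na
      have py := apply_nonneg N y
      rcases le_total 0 t with ht | ht
      · rw [show t • y - y = (t - 1) • y by module, N_smul] at ay'
        rw [abs_of_nonneg ht] at na
        rcases abs_cases (t - 1) with ⟨h3, _⟩ | ⟨h3, _⟩ <;> rw [h3] at ay' <;> nlinarith
      · rw [show t • y + y = (t + 1) • y by module, N_smul] at ay
        rw [abs_of_nonpos ht] at na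
        rcases abs_cases (t + 1) with ⟨h3, _⟩ | ⟨h3, _⟩ <;> rw [h3] at ay <;> nlinarith
  · have hrel := det_rel a x y
    have hx : x = (det x y / det a y) • a + (det a x / det a y) • y := by
      have h3 : (det a y)⁻¹ • (det a y • x) = (det a y)⁻¹ • (det x y • a + det a x • y) := by
        rw [hrel]
      rw [smul_smul, inv_mul_cancel₀ hd, one_smul, smul_add, smul_smul, smul_smul] at h3
      rw [div_eq_inv_mul, div_eq_inv_mul]
      exact h3
    set α := det x y / det a y
    set β := det a x / det a y
    rcases le_total 0 α with hα | hα <;> rcases le_total 0 β with hβ | hβ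
    · exact core a y na ny ax ax' ay ay' xy xy' α β hα hβ hx
    · exact core a (-y) na (by rwa [map_neg_eq_map]) ax ax' (by rwa [← sub_eq_add_neg])
        (by rwa [sub_neg_eq_add]) (by rwa [← sub_eq_add_neg]) (by rwa [sub_neg_eq_add]) α (-β) hα
        (by linarith) (by rw [smul_neg, neg_smul, neg_neg]; exact hx)
    · exact core (-a) y (by rwa [map_neg_eq_map]) ny
        (by rw [show -a + x = -(a - x) by abel, map_neg_eq_map]; exact ax')
        (by rw [show -a - x = -(a + x) by abel, map_neg_eq_map]; exact ax)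
        (by rw [show -a + y = -(a - y) by abel, map_neg_eq_map]; exact ay')
        (by rw [show -a - y = -(a + y) by abel, map_neg_eq_map]; exact ay) xy xy' (-α) β
        (by linarith) hβ (by rw [smul_neg, neg_smul, neg_neg]; exact hx)
    · exact core (-a) (-y) (by rwa [map_neg_eq_map]) (by rwa [map_neg_eq_map])
        (by rw [show -a + x = -(a - x) by abel, map_neg_eq_map]; exact ax')
        (by rw [show -a - x = -(a + x) by abel, map_neg_eq_map]; exact ax)
        (by rw [show -a + -y = -(a + y) by abel, map_neg_eq_map]; exact ay)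
        (by rw [show -a - -y = -(a - y) by abel, map_neg_eq_map]; exact ay')
        (by rwa [← sub_eq_add_neg]) (by rwa [sub_neg_eq_add]) (-α) (-β)
        (by linarith) (by linarith)
        (by rw [smul_neg, neg_smul, neg_neg, smul_neg, neg_smul, neg_neg]; exact hx)

/-! ### Classes modulo two -/

/-- Reduction modulo two. -/
def red : ℤ × (Fin 2 → ℤ) →+ ZMod 2 × (Fin 2 → ZMod 2) :=
  AddMonoidHom.mk' (fun w => ((w.1 : ZMod 2), fun i => (w.2 i : ZMod 2)))
    (by intro a b; ext <;> simp)

lemma red_eq_zero {w : ℤ × (Fin 2 → ℤ)} (h : red w = 0) : ∃ v, w = v + v := by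
  have h1 : ((w.1 : ℤ) : ZMod 2) = 0 := congrArg Prod.fst h
  have h2 : ∀ i, ((w.2 i : ℤ) : ZMod 2) = 0 := fun i => congrFun (congrArg Prod.snd h) i
  rw [ZMod.intCast_zmod_eq_zero_iff_dvd] at h1
  have h3 : ∀ i, (2 : ℤ) ∣ w.2 i := fun i => by
    have := h2 i
    rwa [ZMod.intCast_zmod_eq_zero_iff_dvd] at this
  obtain ⟨k, hk⟩ := h1
  choose l hl using h3
  refine ⟨(k, l), ?_⟩
  ext i
  · simp only [Prod.fst_add]; push_cast at hk; omega
  · simp only [Prod.snd_add, Pi.add_apply]; have := hl i; push_cast at this; omega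

lemma zmod2 (c : ZMod 2) : c = 0 ∨ c = 1 := by
  fin_cases c
  · left; rfl
  · right; rfl

/-- If no nontrivial combination of `a, b, c` with coefficients `0, 1` is twice an integer point
then every integer point is such a combination plus twice an integer point. -/
theorem classes {a b c : ℤ × (Fin 2 → ℤ)} (ha : ∀ v, a ≠ v + v) (hb : ∀ v, b ≠ v + v)
    (hc : ∀ v, c ≠ v + v) (hab : ∀ v, a + b ≠ v + v) (hac : ∀ v, a + c ≠ v + v)
    (hbc : ∀ v, b + c ≠ v + v) (habc : ∀ v, a + b + c ≠ v + v) (w : ℤ × (Fin 2 → ℤ)) :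
    ∃ v, w = v + v ∨ w = a + (v + v) ∨ w = b + (v + v) ∨ w = c + (v + v) ∨
      w = a + b + (v + v) ∨ w = a + c + (v + v) ∨ w = b + c + (v + v) ∨
      w = a + b + c + (v + v) := by
  let φ : ZMod 2 × ZMod 2 × ZMod 2 → ZMod 2 × (Fin 2 → ZMod 2) :=
    fun s => s.1 • red a + s.2.1 • red b + s.2.2 • red c
  have hφ : ∀ s t, φ s - φ t = φ (s - t) := by
    intro s t
    simp only [φ, Prod.fst_sub, Prod.snd_sub]
    module
  have h0 : ∀ s, φ s = 0 → s = 0 := by
    rintro ⟨s1, s2, s3⟩ hs
    simp only [φ] at hs
    rcases zmod2 s1 with rfl | rfl <;> rcases zmod2 s2 with rfl | rfl <;>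
      rcases zmod2 s3 with rfl | rfl <;>
      simp only [zero_smul, one_smul, zero_add, add_zero, ← map_add] at hs
    · rfl
    · obtain ⟨v, hv⟩ := red_eq_zero hs; exact absurd hv (hc v)
    · obtain ⟨v, hv⟩ := red_eq_zero hs; exact absurd hv (hb v)
    · obtain ⟨v, hv⟩ := red_eq_zero hs; exact absurd hv (hbc v)
    · obtain ⟨v, hv⟩ := red_eq_zero hs; exact absurd hv (ha v)
    · obtain ⟨v, hv⟩ := red_eq_zero hs; exact absurd hv (hac v)
    · obtain ⟨v, hv⟩ := red_eq_zero hs; exact absurd hv (hab v)
    · obtain ⟨v, hv⟩ := red_eq_zero hs; exact absurd hv (habc v)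
  have hinj : Function.Injective φ := by
    intro s t hst
    have := h0 (s - t) (by rw [← hφ, hst, sub_self])
    exact sub_eq_zero.mp this
  have hsurj : Function.Surjective φ :=
    ((Fintype.bijective_iff_injective_and_card φ).mpr ⟨hinj, by simp [ZMod.card]⟩).surjective
  obtain ⟨⟨s1, s2, s3⟩, hs⟩ := hsurj (red w)
  simp only [φ] at hs
  have key : ∀ u : ℤ × (Fin 2 → ℤ), red u = red w → ∃ v, w = u + (v + v) := by
    intro u hu
    obtain ⟨v, hv⟩ := red_eq_zero (w := w - u) (by rw [map_sub, hu, sub_self])
    exact ⟨v, by rw [← hv]; abel⟩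
  rcases zmod2 s1 with rfl | rfl <;> rcases zmod2 s2 with rfl | rfl <;>
    rcases zmod2 s3 with rfl | rfl <;>
    simp only [zero_smul, one_smul, zero_add, add_zero, ← map_add] at hs
  · obtain ⟨v, hv⟩ := red_eq_zero hs.symm; exact ⟨v, by tauto⟩
  · obtain ⟨v, hv⟩ := key _ hs; exact ⟨v, by tauto⟩
  · obtain ⟨v, hv⟩ := key _ hs; exact ⟨v, by tauto⟩
  · obtain ⟨v, hv⟩ := key _ hs; exact ⟨v, by tauto⟩
  · obtain ⟨v, hv⟩ := key _ hs; exact ⟨v, by tauto⟩
  · obtain ⟨v, hv⟩ := key _ hs; exact ⟨v, by tauto⟩
  · obtain ⟨v, hv⟩ := key _ hs; exact ⟨v, by tauto⟩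
  · obtain ⟨v, hv⟩ := key _ hs; exact ⟨v, by tauto⟩

end Pool.Agent.Work.MP_7453a1_nt_h45
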