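import Pool.Agent.Work.MP_7453a1_nt_h45.Struct

set_option autoImplicit false

/-!
Elimination of classes modulo two, and the structure theorem for two neighbouring bad exceptional
steps.
-/

namespace Pool.Agent.Work.MP_7453a1_nt_h45

open Pool.Agent.Work.MP_7453a1_nt_norm Pool.Agent.Work.MP_7453a1_nt_h63

variable {N : Seminorm ℝ V} {Θ : V}

lemma fst_double (v : Pt 2) : (v + v).1 = 2 * v.1 := by
  rw [Prod.fst_add]; ring

namespace Raw

variable {D z2 u z3 : Pt 2}

lemma pos2 (h : Raw N Θ D z2 u z3) : 0 < N (ev Θ z2) :=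
  lt_of_le_of_lt (apply_nonneg N _) h.l3

/-- Every integer point is congruent modulo two to a combination of `D, u, z₃`. -/
lemma classes_u (h : Raw N Θ D z2 u z3) (w : Pt 2) :
    ∃ v, w = v + v ∨ w = D + (v + v) ∨ w = u + (v + v) ∨ w = z3 + (v + v) ∨
      w = D + u + (v + v) ∨ w = D + z3 + (v + v) ∨ w = u + z3 + (v + v) ∨
      w = D + u + z3 + (v + v) := by
  have q1 := h.d0; have q2 := h.d2; have q3 := h.q23; have q4 := h.qu; have q5 := h.qu2
  have n2 := h.l2; have n3 := h.l3; have n4 := h.l4; have n5 := h.l5; have n6 := h.l6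
  have n7 := h.l7; have n8 := h.l8; have nD := h.nD
  have ku := h.ku
  have p8 := apply_nonneg N (ev Θ z3 + ev Θ u + ev Θ z3 + ev Θ D + ev Θ D)
  refine classes ?_ ?_ ?_ ?_ ?_ ?_ ?_ w
  · intro v hv
    have e := ev_double (N := N) (Θ := Θ) v
    rw [← hv] at e
    have f := fst_double v
    rw [← hv] at f
    have := h.x2 v (by intro h0; rw [h0] at f; simp at f; omega)
      (by rw [abs_lt]; constructor <;> omega)
    linarith
  · intro v hv
    have e := ev_double (N := N) (Θ := Θ) v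
    rw [← hv] at e
    have f := fst_double v
    rw [← hv] at f
    have := h.x2 v (by intro h0; rw [h0] at f; simp at f; omega)
      (by rw [abs_lt]; constructor <;> omega)
    have k := map_sub_le_add N (ev Θ z3 + ev Θ u) (ev Θ z3)
    rw [add_sub_cancel_left] at k
    linarith
  · intro v hv
    have e := ev_double (N := N) (Θ := Θ) v
    rw [← hv] at e
    have f := fst_double v
    rw [← hv] at f
    have := h.x3 v (by intro h0; rw [h0] at f; simp at f; omega)
      (by rw [abs_lt]; constructor <;> omega)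
    linarith
  · intro v hv
    have e := ev_double (N := N) (Θ := Θ) v
    rw [← hv, map_add (ev Θ), add_comm] at e
    have f := fst_double v
    rw [← hv] at f
    have g : (D + u).1 = D.1 + u.1 := rfl
    have := h.x3 v (by intro h0; rw [h0] at f; simp at f; omega)
      (by rw [abs_lt]; constructor <;> omega)
    linarith
  · intro v hv
    have e := ev_double (N := N) (Θ := Θ) v
    rw [← hv, map_add (ev Θ), add_comm] at e
    have f := fst_double v
    rw [← hv] at f
    have g : (D + z3).1 = D.1 + z3.1 := rfl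
    have := h.x3 v (by intro h0; rw [h0] at f; simp at f; omega)
      (by rw [abs_lt]; constructor <;> omega)
    linarith
  · intro v hv
    have e := ev_double (N := N) (Θ := Θ) v
    rw [← hv, map_add (ev Θ), add_comm] at e
    have f := fst_double v
    rw [← hv] at f
    have g : (u + z3).1 = u.1 + z3.1 := rfl
    have := h.x3 v (by intro h0; rw [h0] at f; simp at f; omega)
      (by rw [abs_lt]; constructor <;> omega)
    linarith
  · intro v hv
    have e := ev_double (N := N) (Θ := Θ) v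
    rw [← hv] at e
    have f := fst_double v
    rw [← hv] at f
    have g : (D + u + z3).1 = D.1 + u.1 + z3.1 := rfl
    have := h.x3 v (by intro h0; rw [h0] at f; simp at f; omega)
      (by rw [abs_lt]; constructor <;> omega)
    rw [show ev Θ (D + u + z3) = ev Θ z3 + ev Θ u + ev Θ D by
      rw [map_add (ev Θ), map_add (ev Θ)]; abel] at e
    linarith

/-- A vector `y` is not congruent to a shorter vector with close denominator. -/
lemma key {y c v : Pt 2} {Q : ℤ}
    (ex : ∀ w : Pt 2, w ≠ 0 → |w.1| < Q → N (ev Θ y) ≤ N (ev Θ w))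
    (hc : N (ev Θ c) < N (ev Θ y)) (hq : |c.1 - y.1| < 2 * Q) (hne : c.1 ≠ y.1) :
    y ≠ c + (v + v) := by
  intro hv
  have e : v + v = y - c := by rw [hv]; abel
  have f := fst_double v
  rw [e, Prod.fst_sub] at f
  have g := ev_double (N := N) (Θ := Θ) v
  rw [e, map_sub (ev Θ)] at g
  have k := map_sub_le_add N (ev Θ y) (ev Θ c)
  rw [abs_lt] at hq
  have := ex v (by intro h0; rw [h0] at f; simp at f; omega)
    (by rw [abs_lt]; constructor <;> omega)
  linarith

/-- The class of `D`. -/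
lemma not_D (h : Raw N Θ D z2 u z3) {y v : Pt 2} {Q : ℤ} (hd : D.1 < y.1) (hyQ : y.1 < Q)
    (ex : ∀ w : Pt 2, w ≠ 0 → |w.1| < Q → N (ev Θ y) ≤ N (ev Θ w))
    (ly : N (ev Θ z2) ≤ N (ev Θ y)) : y ≠ D + (v + v) := by
  intro hv
  have q1 := h.d0
  have n3 := h.l3; have n4 := h.l4; have n5 := h.l5; have n6 := h.l6
  have lu := h.lu
  have pz := h.pos2
  have e1 : v + v = y - D := by rw [hv]; abel
  have e2 : (v + D) + (v + D) = y + D := by rw [hv]; abel
  have f1 := fst_double v
  rw [e1, Prod.fst_sub] at f1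
  have f2 := fst_double (v + D)
  rw [e2, Prod.fst_add] at f2
  have g1 := ev_double (N := N) (Θ := Θ) v
  rw [e1, map_sub (ev Θ)] at g1
  have g2 := ev_double (N := N) (Θ := Θ) (v + D)
  rw [e2, map_add (ev Θ)] at g2
  have x1 := ex v (by intro h0; rw [h0] at f1; simp at f1; omega)
    (by rw [abs_lt]; constructor <;> omega)
  have x2 := ex (v + D) (by intro h0; rw [h0] at f2; simp at f2; omega)
    (by rw [abs_lt]; constructor <;> omega)
  have a1 : N (ev Θ D + ev Θ u) ≤ N (ev Θ z3 + ev Θ u + ev Θ D) + N (ev Θ z3) := by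
    have k := map_sub_le_add N (ev Θ z3 + ev Θ u + ev Θ D) (ev Θ z3)
    rwa [show ev Θ z3 + ev Θ u + ev Θ D - ev Θ z3 = ev Θ D + ev Θ u by abel] at k
  have a2 : N (ev Θ D - ev Θ u) ≤ N (ev Θ z3 + ev Θ D) + N (ev Θ z3 + ev Θ u) := by
    have k := map_sub_le_add N (ev Θ z3 + ev Θ D) (ev Θ z3 + ev Θ u)
    rwa [show ev Θ z3 + ev Θ D - (ev Θ z3 + ev Θ u) = ev Θ D - ev Θ u by abel] at k
  have fin : ∀ c : V, N (ev Θ y) ≤ N c → N (ev Θ D + c) < 2 * N (ev Θ y) →
      N (ev Θ D - c) < 2 * N (ev Θ y) → False := by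
    intro c h1 h2 h3
    rcases cmp (N := N) (a := ev Θ y) (u := c) (w := ev Θ D) h1 h2 h3 with k | k
    · rw [add_comm] at k; linarith
    · rw [← map_neg_eq_map N, neg_sub] at k; linarith
  rcases le_or_gt (N (ev Θ y)) (N (ev Θ u)) with hle | hlt
  · exact fin (ev Θ u) hle (by linarith) (by linarith)
  · have pu : 0 < N (ev Θ u) := by linarith
    set t : ℝ := N (ev Θ y) / N (ev Θ u) with ht
    have ht1 : 1 < t := by rw [ht, one_lt_div pu]; exact hlt
    have htN : N (t • ev Θ u) = N (ev Θ y) := by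
      rw [N_smul, abs_of_pos (by linarith), ht]; field_simp
    have k0 : N ((t - 1) • ev Θ u) = N (ev Θ y) - N (ev Θ u) := by
      rw [N_smul, abs_of_pos (by linarith), sub_mul, one_mul, ht]; field_simp
    refine fin (t • ev Θ u) htN.ge ?_ ?_
    · have k := map_add_le_add N (ev Θ D + ev Θ u) ((t - 1) • ev Θ u)
      rw [show ev Θ D + ev Θ u + (t - 1) • ev Θ u = ev Θ D + t • ev Θ u by module, k0] at k
      linarith
    · have k := map_sub_le_add N (ev Θ D - ev Θ u) ((t - 1) • ev Θ u)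
      rw [show ev Θ D - ev Θ u - (t - 1) • ev Θ u = ev Θ D - t • ev Θ u by module, k0] at k
      linarith

/-- Halves of `y + c` are not shorter than `z₃`. -/
lemma halves (h : Raw N Θ D z2 u z3) {y c w : Pt 2} (hw : w + w = y + c) (hw0 : w ≠ 0)
    (hq : |y.1 + c.1| < 2 * (z3.1 + D.1)) : 2 * N (ev Θ z3) ≤ N (ev Θ y + ev Θ c) := by
  have f := fst_double w
  rw [hw, Prod.fst_add] at f
  have g := ev_double (N := N) (Θ := Θ) w
  rw [hw, map_add (ev Θ)] at g
  rw [abs_lt] at hq
  have := h.x3 w hw0 (by rw [abs_lt]; constructor <;> omega)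
  linarith

/-- The class of `u`. -/
lemma not_u (h : Raw N Θ D z2 u z3) {y v : Pt 2} (hd : 0 < y.1) (hy3 : y.1 < z3.1)
    (lD : N (ev Θ y) ≤ N (ev Θ D)) (hne : y ≠ u) : y ≠ u + (v + v) := by
  intro hv
  have q1 := h.d0; have q2 := h.d2; have q3 := h.q23; have q4 := h.qu; have q5 := h.qu2
  have a1 := h.halves (y := y) (c := u) (w := v + u) (by rw [hv]; abel) (by
    intro h0
    have f := fst_double (v + u)
    rw [show (v + u) + (v + u) = y + u by rw [hv]; abel, h0] at f
    simp only [Prod.fst_add, Prod.fst_zero] at f; omega)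
    (by rw [abs_lt]; constructor <;> omega)
  have a2 := h.halves (y := y) (c := -u) (w := v) (by rw [hv]; abel) (by
    intro h0; apply hne; rw [hv, h0, add_zero, add_zero])
    (by rw [Prod.fst_neg, abs_lt]; constructor <;> omega)
  rw [map_neg (ev Θ), ← sub_eq_add_neg] at a2
  rcases cmp (N := N) (a := ev Θ y) (u := ev Θ D) (w := ev Θ u) lD h.ku h.ku' with k | k
  · rw [add_comm] at k; linarith
  · rw [← map_neg_eq_map N, neg_sub] at k; linarith

/-- The class of `u + D`. -/
lemma eq_of_Du (h : Raw N Θ D z2 u z3) {y v : Pt 2} (hd : 0 < y.1) (hy : y.1 < u.1 + D.1)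
    (lD : N (ev Θ y) ≤ N (ev Θ D)) (hv : y = D + u + (v + v)) : y = u - D := by
  by_contra hne
  have q1 := h.d0; have q2 := h.d2; have q3 := h.q23; have q4 := h.qu; have q5 := h.qu2
  have n2 := h.l2; have n3 := h.l3; have n4 := h.l4; have n5 := h.l5; have n6 := h.l6
  have n7 := h.l7; have n8 := h.l8; have nD := h.nD
  have lu := h.lu
  have fy : y.1 = D.1 + u.1 + 2 * v.1 := by rw [hv, Prod.fst_add, Prod.fst_add, fst_double]
  have a1 := h.halves (y := y) (c := u + D) (w := v + u + D) (by rw [hv]; abel) (by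
    intro h0
    have : (v + u + D).1 = 0 := by rw [h0]; rfl
    simp only [Prod.fst_add] at this; omega)
    (by simp only [Prod.fst_add]; rw [abs_lt]; constructor <;> omega)
  have a2 := h.halves (y := y) (c := -(u + D)) (w := v) (by rw [hv]; abel) (by
    intro h0
    rw [h0, Prod.fst_zero] at fy; omega)
    (by simp only [Prod.fst_add, Prod.fst_neg]; rw [abs_lt]; constructor <;> omega)
  have a3 := h.halves (y := y) (c := u - D) (w := v + u) (by rw [hv]; abel) (by
    intro h0
    have : (v + u).1 = 0 := by rw [h0]; rfl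
    simp only [Prod.fst_add] at this; omega)
    (by simp only [Prod.fst_sub]; rw [abs_lt]; constructor <;> omega)
  have a4 := h.halves (y := y) (c := -(u - D)) (w := v + D) (by rw [hv]; abel) (by
    intro h0
    apply hne
    have : v = -D := eq_neg_of_add_eq_zero_left h0
    rw [hv, this]; abel)
    (by simp only [Prod.fst_sub, Prod.fst_neg]; rw [abs_lt]; constructor <;> omega)
  rw [map_add (ev Θ)] at a1
  rw [map_neg (ev Θ), map_add (ev Θ), ← sub_eq_add_neg] at a2
  rw [map_sub (ev Θ)] at a3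
  rw [map_neg (ev Θ), map_sub (ev Θ), ← sub_eq_add_neg] at a4
  refine six (N := N) (a := ev Θ y) (x := ev Θ u + ev Θ D) (y := ev Θ u - ev Θ D)
    (r := 2 * N (ev Θ z3)) (by linarith) h.ku h.ku' a1 a2 a3 a4 ?_ ?_
  · rw [show ev Θ u + ev Θ D + (ev Θ u - ev Θ D) = (2 : ℝ) • ev Θ u by module, N_smul,
      abs_of_pos (a := (2 : ℝ)) (by norm_num)]
    linarith
  · rw [show ev Θ u + ev Θ D - (ev Θ u - ev Θ D) = (2 : ℝ) • ev Θ D by module, N_smul,
      abs_of_pos (a := (2 : ℝ)) (by norm_num)]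
    linarith

/-- `z₂` is `u` or `u - D`. -/
theorem z2_eq (h : Raw N Θ D z2 u z3) : z2 = u ∨ z2 = u - D := by
  have q1 := h.d0; have q2 := h.d2; have q3 := h.q23; have q4 := h.qu; have q5 := h.qu2
  have n2 := h.l2; have n3 := h.l3; have n4 := h.l4; have n5 := h.l5; have n6 := h.l6
  have pz := h.pos2
  obtain ⟨v, hv | hv | hv | hv | hv | hv | hv | hv⟩ := h.classes_u z2
  · exfalso
    refine key (v := v) h.x2 (c := 0) ?_ ?_ ?_ (by rw [zero_add]; exact hv)
    · rw [map_zero (ev Θ), map_zero]; linarith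
    · rw [Prod.fst_zero, abs_lt]; constructor <;> omega
    · rw [Prod.fst_zero]; omega
  · exact absurd hv (h.not_D h.d2 h.q23 h.x2 le_rfl)
  · left
    by_contra hne
    exact h.not_u (by omega) h.q23 h.l2.le hne hv
  · exfalso
    exact key (v := v) h.x2 (c := z3) n3 (by rw [abs_lt]; constructor <;> omega) (by omega) hv
  · right
    exact h.eq_of_Du (by omega) (by omega) h.l2.le hv
  · exfalso
    refine key (v := v) h.x2 (c := D + z3) ?_ ?_ ?_ hv
    · rw [map_add (ev Θ), add_comm]; linarith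
    · rw [Prod.fst_add, abs_lt]; constructor <;> omega
    · rw [Prod.fst_add]; omega
  · exfalso
    refine key (v := v) h.x2 (c := u + z3) ?_ ?_ ?_ hv
    · rw [map_add (ev Θ), add_comm]; linarith
    · rw [Prod.fst_add, abs_lt]; constructor <;> omega
    · rw [Prod.fst_add]; omega
  · exfalso
    refine key (v := v) h.x2 (c := D + u + z3) ?_ ?_ ?_ hv
    · rw [show ev Θ (D + u + z3) = ev Θ z3 + ev Θ u + ev Θ D by
        rw [map_add (ev Θ), map_add (ev Θ)]; abel]
      linarith
    · rw [Prod.fst_add, Prod.fst_add, abs_lt]; constructor <;> omega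
    · rw [Prod.fst_add, Prod.fst_add]; omega

end Raw

namespace Win

variable {D z2 u z3 : Pt 2}

/-- The short vector `y` is congruent to `z₂ + D`. -/
theorem elim (h : Win N Θ D z2 u z3) {y : Pt 2} {Q : ℤ} (hd : D.1 < y.1) (hyQ : y.1 < Q)
    (hQ : Q ≤ z2.1) (ex : ∀ w : Pt 2, w ≠ 0 → |w.1| < Q → N (ev Θ y) ≤ N (ev Θ w))
    (ly : N (ev Θ z2) < N (ev Θ y)) (lD : N (ev Θ y) ≤ N (ev Θ D)) (c2 : z2.1 < 2 * Q + y.1)
    (c4 : z3.1 + D.1 < 2 * Q + y.1) (c3 : 2 * D.1 < z3.1) :
    ∃ v, y = D + z2 + (v + v) := by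
  have q1 := h.d0; have q2 := h.d2; have q3 := h.q23; have q4 := h.qu; have q5 := h.qu2
  have n2 := h.l2; have n3 := h.l3; have n4 := h.l4; have n5 := h.l5; have n6 := h.l6
  have n7 := h.l7; have n8 := h.l8; have nD := h.nD
  have pz := h.pos2
  have hcl : ∃ v, y = v + v ∨ y = D + (v + v) ∨ y = z2 + (v + v) ∨ y = z3 + (v + v) ∨
      y = D + z2 + (v + v) ∨ y = D + z3 + (v + v) ∨ y = z2 + z3 + (v + v) ∨
      y = D + z2 + z3 + (v + v) := by
    obtain ⟨v, hv⟩ := h.classes_u y
    rcases h.hu with h4 | h4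
    · rw [h4] at hv; exact ⟨v, hv⟩
    · rw [h4] at hv
      rcases hv with hv | hv | hv | hv | hv | hv | hv | hv
      · exact ⟨v, by tauto⟩
      · exact ⟨v, by tauto⟩
      · refine ⟨v, ?_⟩
        have : y = D + z2 + (v + v) := by rw [hv]; abel
        tauto
      · exact ⟨v, by tauto⟩
      · refine ⟨v + D, ?_⟩
        have : y = z2 + (v + D + (v + D)) := by rw [hv]; abel
        tauto
      · exact ⟨v, by tauto⟩
      · refine ⟨v, ?_⟩
        have : y = D + z2 + z3 + (v + v) := by rw [hv]; abel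
        tauto
      · refine ⟨v + D, ?_⟩
        have : y = z2 + z3 + (v + D + (v + D)) := by rw [hv]; abel
        tauto
  obtain ⟨v, hv | hv | hv | hv | hv | hv | hv | hv⟩ := hcl
  · exfalso
    refine Raw.key (v := v) ex (c := 0) ?_ ?_ ?_ (by rw [zero_add]; exact hv)
    · rw [map_zero (ev Θ), map_zero]; linarith
    · rw [Prod.fst_zero, abs_lt]; constructor <;> omega
    · rw [Prod.fst_zero]; omega
  · exact absurd hv (h.not_D hd hyQ ex ly.le)
  · exfalso
    exact Raw.key (v := v) ex (c := z2) ly (by rw [abs_lt]; constructor <;> omega) (by omega) hv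
  · exfalso
    exact Raw.key (v := v) ex (c := z3) (by linarith) (by rw [abs_lt]; constructor <;> omega)
      (by omega) hv
  · exact ⟨v, hv⟩
  · exfalso
    refine Raw.key (v := v) ex (c := D + z3) ?_ ?_ ?_ hv
    · rw [map_add (ev Θ), add_comm]; linarith
    · rw [Prod.fst_add, abs_lt]; constructor <;> omega
    · rw [Prod.fst_add]; omega
  · exfalso
    exact (h.no_class hd (by omega) lD c3 v).1 hv
  · exfalso
    exact (h.no_class hd (by omega) lD c3 v).2 hv

/-- The first preceding vector: `z₂ = u` and `y = z₂ - D`. -/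
theorem first (h : Win N Θ D z2 u z3) {y : Pt 2} (hd : D.1 < y.1) (hyQ : y.1 < z2.1)
    (ex : ∀ w : Pt 2, w ≠ 0 → |w.1| < z2.1 → N (ev Θ y) ≤ N (ev Θ w))
    (ly : N (ev Θ z2) < N (ev Θ y)) (lD : N (ev Θ y) ≤ N (ev Θ D))
    (c4 : z3.1 + D.1 < 2 * z2.1 + y.1) (c3 : 2 * D.1 < z3.1) : u = z2 ∧ y = z2 - D := by
  have q1 := h.d0; have q2 := h.d2; have q3 := h.q23; have q4 := h.qu; have q5 := h.qu2
  obtain ⟨v, hv⟩ := h.elim hd hyQ le_rfl ex ly lD (by omega) c4 c3
  rcases h.hu with h4 | h4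
  · refine ⟨h4, ?_⟩
    have := h.eq_of_Du (y := y) (v := v) (by omega) (by omega) lD (by rw [hv, h4])
    rw [this, h4]
  · exfalso
    have hu1 : u.1 = z2.1 + D.1 := by rw [h4]; rfl
    exact h.not_u (y := y) (v := v) (by omega) (by omega) lD
      (by intro h5; rw [h5] at hyQ; omega) (by rw [hv, h4]; abel)

/-- The second preceding vector: its denominator is at most that of `D`. -/
theorem second (h : Win N Θ D z2 u z3) {y : Pt 2} (hyQ : y.1 < z2.1 - D.1) (hD : 2 * D.1 < z2.1)
    (ex : ∀ w : Pt 2, w ≠ 0 → |w.1| < z2.1 - D.1 → N (ev Θ y) ≤ N (ev Θ w))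
    (l1 : N (ev Θ z2) < N (ev Θ z2 - ev Θ D)) (ly : N (ev Θ z2 - ev Θ D) < N (ev Θ y))
    (lD : N (ev Θ y) ≤ N (ev Θ D)) (c4 : z3.1 + D.1 < 2 * (z2.1 - D.1) + y.1)
    (hy0 : 0 < y.1) (c3 : 2 * D.1 < z3.1) : y.1 ≤ D.1 := by
  by_contra hd
  push Not at hd
  have q1 := h.d0; have q2 := h.d2; have q3 := h.q23
  obtain ⟨v, hv⟩ := h.elim (y := y) (Q := z2.1 - D.1) hd hyQ (by omega) ex (by linarith) lD
    (by omega) c4 c3
  have e : (v + D) + (v + D) = y - (z2 - D) := by rw [hv]; abel
  have f := fst_double (v + D)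
  rw [e] at f
  simp only [Prod.fst_sub] at f
  have g := ev_double (N := N) (Θ := Θ) (v + D)
  rw [e, map_sub (ev Θ), map_sub (ev Θ)] at g
  have k := map_sub_le_add N (ev Θ y) (ev Θ z2 - ev Θ D)
  have := ex (v + D) (by intro h0; rw [h0] at f; simp at f; omega)
    (by rw [abs_lt]; constructor <;> omega)
  linarith

end Win

end Pool.Agent.Work.MP_7453a1_nt_h45
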