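import Pool.Agent.Work.MP_7453a1_nt_h45.Tour

set_option autoImplicit false

/-!
Four vectors of a normed plane in a ball of radius `r`, at most one on the sphere, with mutual
distances at least `r`: one of the three alternating sums is short.
-/

namespace Pool.Agent.Work.MP_7453a1_nt_h45

variable {N : Seminorm ℝ V}

lemma parallel {a b : V} (ha : a ≠ 0) (h : det a b = 0) : ∃ t : ℝ, b = t • a := by
  unfold det at h
  by_cases h0 : a 0 = 0
  · have h1 : a 1 ≠ 0 := by
      intro h1
      apply ha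
      ext i; fin_cases i <;> simp [h0, h1]
    refine ⟨b 1 / a 1, ?_⟩
    have hb : b 0 = 0 := by
      have : a 1 * b 0 = 0 := by rw [h0] at h; linarith
      exact (mul_eq_zero.mp this).resolve_left h1
    ext i; fin_cases i
    · simp [h0, hb]
    · simp; field_simp
  · refine ⟨b 0 / a 0, ?_⟩
    ext i; fin_cases i
    · simp; field_simp
    · simp
      field_simp
      linarith

lemma smul_solve {m p q : ℝ} {x y z : V} (hm : m ≠ 0) (e : m • x = p • y - q • z) :
    x = (p / m) • y - (q / m) • z := by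
  have e3 : x = m⁻¹ • (m • x) := by rw [smul_smul, inv_mul_cancel₀ hm, one_smul]
  rw [e3, e, smul_sub, smul_smul, smul_smul, div_eq_inv_mul, div_eq_inv_mul]

/-- The hypotheses on the four vectors. -/
structure Sep (N : Seminorm ℝ V) (r : ℝ) (v : Fin 4 → V) : Prop where
  ball : ∀ i, N (v i) ≤ r
  one : ∀ i j, i ≠ j → N (v i) < r ∨ N (v j) < r
  dist : ∀ i j, i ≠ j → r ≤ N (v i - v j)

namespace Sep

variable {r : ℝ} {v : Fin 4 → V}

lemma nopos (h : Sep N r v) {i k l : Fin 4} (hik : i ≠ k) (hil : i ≠ l) (hkl : k ≠ l) {t : ℝ}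
    (ht : 0 ≤ t) (e : v k = t • v i) : False := by
  have := fact (N := N) (r := r) (α := 1) (β := t) (γ := 0) (a := v i) (b := v k) (c := v l)
    one_pos ht le_rfl (by rw [one_smul, zero_smul, add_zero, e]) (h.ball i) (h.ball k) (h.ball l)
    (h.one i k hik) (h.one k l hkl) (h.one i l hil) (h.dist k i hik.symm) (h.dist k l hkl)
  linarith [this.2]

lemma ne_zero (h : Sep N r v) {i k l : Fin 4} (hik : i ≠ k) (hil : i ≠ l) (hkl : k ≠ l) :
    v i ≠ 0 := by
  intro e
  exact h.nopos (i := k) (k := i) (l := l) hik.symm hkl hil (t := 0) le_rfl (by rw [e, zero_smul])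

lemma good (h : Sep N r v) : Good v where
  fact := by
    intro i j k hij hjk hik h1 h2 h3
    exact fact (N := N) (r := r) h3 h2 h1 (det_rel (v i) (v j) (v k)) (h.ball i) (h.ball j)
      (h.ball k) (h.one i j hij) (h.one j k hjk) (h.one i k hik) (h.dist j i hij.symm)
      (h.dist j k hjk)
  opp := by
    intro i k l hik hkl hil h0
    have hi : v i ≠ 0 := h.ne_zero hik hil hkl
    have hk : v k ≠ 0 := h.ne_zero hik.symm hkl hil
    obtain ⟨t, ht⟩ := parallel hi h0
    have ht0 : t < 0 := by
      by_contra hcon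
      push Not at hcon
      exact h.nopos hik hil hkl hcon ht
    have hne : det (v i) (v l) ≠ 0 := by
      intro h1
      obtain ⟨s, hs⟩ := parallel hi h1
      have hs0 : s < 0 := by
        by_contra hcon
        push Not at hcon
        exact h.nopos hil hik hkl.symm hcon hs
      refine h.nopos (i := k) (k := l) (l := i) hkl hik.symm hil.symm (t := s / t)
        (div_nonneg_of_nonpos hs0.le ht0.le) ?_
      rw [hs, ht, smul_smul, div_mul_cancel₀ _ ht0.ne]
    have e : det (v k) (v l) = t * det (v i) (v l) := by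
      rw [ht]; unfold det; simp; ring
    rw [e]
    have : 0 < det (v i) (v l) * det (v i) (v l) := mul_self_pos.mpr hne
    nlinarith

/-- One of the alternating sums is short. -/
theorem short (h : Sep N r v) : ∃ a b c d : Fin 4,
    (a ≠ b ∧ a ≠ c ∧ a ≠ d ∧ b ≠ c ∧ b ≠ d ∧ c ≠ d) ∧
    (N (v a + v c - v b - v d) + r ≤ N (v a) + N (v b) ∨
      N (v a + v c - v b - v d) + r ≤ N (v b) + N (v c) ∨
      N (v a + v c - v b - v d) + r ≤ N (v c) + N (v d) ∨
      N (v a + v c - v b - v d) + r ≤ N (v d) + N (v a)) := by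
  obtain ⟨a, b, c, d, hne, h1, h2, h3, h4, h5, h6⟩ := h.good.cyclic
  have hm : 0 < det (v b) (v c) := lt_of_le_of_lt h1 h3
  refine ⟨a, b, c, d, hne, ?_⟩
  obtain ⟨hab, hac, had, hbc, hbd, hcd⟩ := hne
  refine alternating (N := N) (α := det (v a) (v c) / det (v b) (v c))
    (β := det (v a) (v b) / det (v b) (v c)) (γ := det (v b) (v d) / det (v b) (v c))
    (δ := det (v c) (v d) / det (v b) (v c)) (div_nonneg h1 hm.le) ((div_lt_one hm).mpr h3)
    (div_lt_div_of_pos_right h4 hm) (div_nonneg h2 hm.le) ((div_lt_one hm).mpr h6)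
    (div_lt_div_of_pos_right h5 hm) (smul_solve hm.ne' ?_) (smul_solve hm.ne' ?_)
    (h.dist a b hab) (h.dist b c hbc) (h.dist c d hcd) (h.dist d a had.symm)
  · rw [det_rel (v a) (v b) (v c)]; abel
  · rw [det_rel (v b) (v c) (v d)]; abel

end Sep

lemma pairing (v : Fin 4 → V) : ∀ a b c d : Fin 4,
    (a ≠ b ∧ a ≠ c ∧ a ≠ d ∧ b ≠ c ∧ b ≠ d ∧ c ≠ d) →
    N (v a + v c - v b - v d) = N (v 0 + v 3 - v 1 - v 2) ∨
    N (v a + v c - v b - v d) = N (v 0 + v 2 - v 1 - v 3) ∨
    (N (v a + v c - v b - v d) = N (v 0 + v 1 - v 2 - v 3) ∧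
      ((a < 2 ∧ c < 2 ∧ 2 ≤ b ∧ 2 ≤ d) ∨ (2 ≤ a ∧ 2 ≤ c ∧ b < 2 ∧ d < 2))) := by
  intro a b c d hne
  fin_cases a <;> fin_cases b <;> fin_cases c <;> fin_cases d <;> simp at hne ⊢ <;>
    first
      | (left; congr 1; abel; done)
      | (right; congr 1; abel; done)
      | (right; left; congr 1; abel; done)
      | (right; right; congr 1; abel; done)
      | (left; rw [← map_neg_eq_map]; congr 1; abel; done)
      | (right; rw [← map_neg_eq_map]; congr 1; abel; done)
      | (right; left; rw [← map_neg_eq_map]; congr 1; abel; done)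
      | (right; right; rw [← map_neg_eq_map]; congr 1; abel)

/-- Four vectors with decreasing lengths, mutual distances at least the first length. -/
theorem three_sums {v0 v1 v2 v3 : V} (h01 : N v1 < N v0) (h12 : N v2 < N v1) (h23 : N v3 < N v2)
    (d01 : N v0 ≤ N (v0 - v1)) (d02 : N v0 ≤ N (v0 - v2)) (d03 : N v0 ≤ N (v0 - v3))
    (d12 : N v0 ≤ N (v1 - v2)) (d13 : N v0 ≤ N (v1 - v3)) (d23 : N v0 ≤ N (v2 - v3)) :
    N (v0 + v3 - v1 - v2) ≤ N v1 ∨ N (v0 + v2 - v1 - v3) ≤ N v1 ∨
      N (v0 + v1 - v2 - v3) ≤ N v2 := by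
  have S : Sep N (N v0) ![v0, v1, v2, v3] := by
    refine ⟨fun i => ?_, fun i j hij => ?_, fun i j hij => ?_⟩
    · fin_cases i <;> simp <;> linarith
    · fin_cases i <;> fin_cases j <;> simp at hij ⊢ <;> first | linarith | (left; linarith)
    · fin_cases i <;> fin_cases j <;> simp at hij ⊢ <;>
        first | assumption | (rw [map_sub_rev]; assumption)
  obtain ⟨a, b, c, d, hne, H⟩ := S.short
  have hP := pairing (N := N) ![v0, v1, v2, v3] a b c d hne
  have L1 : ∀ i j : Fin 4, i ≠ j → N (![v0, v1, v2, v3] i) + N (![v0, v1, v2, v3] j)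
      ≤ N v0 + N v1 := by
    intro i j hij
    fin_cases i <;> fin_cases j <;> simp at hij ⊢ <;> linarith
  have L2 : ∀ i j : Fin 4, i < 2 → 2 ≤ j → N (![v0, v1, v2, v3] i) + N (![v0, v1, v2, v3] j)
      ≤ N v0 + N v2 := by
    intro i j hi hj
    fin_cases i <;> fin_cases j <;> simp at hi hj ⊢ <;> linarith
  obtain ⟨hab, hac, had, hbc, hbd, hcd⟩ := hne
  rcases hP with e | e | ⟨e, hh⟩
  · left
    have : N (v0 + v3 - v1 - v2) + N v0 ≤ N v0 + N v1 := by
      rw [e] at H
      simp only [Matrix.cons_val_zero, Matrix.cons_val_one, Matrix.cons_val] at H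
      have a1 := L1 a b hab
      have a2 := L1 b c hbc
      have a3 := L1 c d hcd
      have a4 := L1 d a had.symm
      rcases H with H | H | H | H <;> linarith
    linarith
  · right; left
    have : N (v0 + v2 - v1 - v3) + N v0 ≤ N v0 + N v1 := by
      rw [e] at H
      simp only [Matrix.cons_val_zero, Matrix.cons_val_one, Matrix.cons_val] at H
      have a1 := L1 a b hab
      have a2 := L1 b c hbc
      have a3 := L1 c d hcd
      have a4 := L1 d a had.symm
      rcases H with H | H | H | H <;> linarith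
    linarith
  · right; right
    have : N (v0 + v1 - v2 - v3) + N v0 ≤ N v0 + N v2 := by
      rw [e] at H
      simp only [Matrix.cons_val_zero, Matrix.cons_val_one, Matrix.cons_val] at H
      rcases hh with ⟨ha, hc, hb, hd⟩ | ⟨ha, hc, hb, hd⟩
      · have a1 := L2 a b ha hb
        have a2 := L2 c b hc hb
        have a3 := L2 c d hc hd
        have a4 := L2 a d ha hd
        rcases H with H | H | H | H <;> linarith
      · have a1 := L2 b a hb ha
        have a2 := L2 b c hb hc
        have a3 := L2 d c hd hc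
        have a4 := L2 d a hd ha
        rcases H with H | H | H | H <;> linarith
    linarith

end Pool.Agent.Work.MP_7453a1_nt_h45
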