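import Pool.Agent.Work.MP_7453a1_nt_h45.FTwo

set_option autoImplicit false

/-!
The growth constant `t ^ 8 = 2 t ^ 4 + t + 1` from windows of nine consecutive denominators.
-/

namespace Pool.Agent.Work.MP_7453a1_nt_h45

open Pool.Agent.Work.MP_7453a1_nt_norm Filter
open scoped ENNReal

variable {N : Seminorm ℝ V} {Θ : V} {z : ℕ → Pt 2}

/-- The root of `t ^ 8 = 2 t ^ 4 + t + 1` is smaller than `1.296`. -/
lemma root_lt {t : ℝ} (ht : 1 ≤ t) (h8 : t ^ 8 = 2 * t ^ 4 + t + 1) : t < 1.296 := by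
  by_contra hcon
  push Not at hcon
  have h2 : (1.679 : ℝ) ≤ t ^ 2 := by nlinarith
  have h3 : (2.176 : ℝ) ≤ t ^ 3 := by nlinarith
  have h4 : (2.82 : ℝ) ≤ t ^ 4 := by nlinarith
  have h5 : t ^ 4 = t ^ 3 * t := by ring
  have h6 : t ^ 8 = t ^ 4 * t ^ 4 := by ring
  have h7 : 2.176 * t ≤ t ^ 4 := by rw [h5]; nlinarith
  nlinarith

lemma lt_root {t : ℝ} (ht : 1 ≤ t) (h8 : t ^ 8 = 2 * t ^ 4 + t + 1) : 1.29 < t := by
  by_contra hcon
  push Not at hcon
  have h2 : t ^ 2 ≤ 1.6641 := by nlinarith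
  have h4 : t ^ 4 ≤ 2.77 := by nlinarith
  have h6 : t ^ 8 = t ^ 4 * t ^ 4 := by ring
  have h7 : 1 ≤ t ^ 4 := one_le_pow₀ ht
  have h9 : t ^ 4 = t ^ 2 * t ^ 2 := by ring
  have h10 : t ^ 2 = t * t := by ring
  have h11 : t ^ 2 ≤ 1.29 * t := by nlinarith
  have h12 : t ^ 4 ≤ 2.147 * t := by
    have : t ^ 4 = t ^ 2 * t ^ 2 := by ring
    nlinarith
  nlinarith

/-- The arithmetic of the induction step. -/
lemma growth_arith {t C : ℝ} (ht : 1 ≤ t) (h8 : t ^ 8 = 2 * t ^ 4 + t + 1) (hC : 0 < C)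
    {m0 m1 m2 m3 m4 m5 m6 m7 m8 : ℝ}
    (i0 : C ≤ m0) (i1 : C * t ≤ m1) (i2 : C * t ^ 2 ≤ m2) (i3 : C * t ^ 3 ≤ m3)
    (i4 : C * t ^ 4 ≤ m4) (i5 : C * t ^ 5 ≤ m5) (i6 : C * t ^ 6 ≤ m6)
    (e0 : m3 < m0 + m1 → m1 + m2 ≤ m4)
    (e2 : m5 < m2 + m3 → m3 + m4 ≤ m6)
    (e3 : m6 < m3 + m4 → m6 + m3 = m4 + m5)
    (e3' : m6 < m3 + m4 → m4 + m5 ≤ m7)
    (e4 : m7 < m4 + m5 → m5 + m6 ≤ m8)
    (e5 : m8 < m5 + m6 → m8 + m5 = m6 + m7)
    (p : m6 < m3 + m4 → m8 < m5 + m6 → m4 < m3 + m1 →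
      (m1 + (m4 - m3) ≤ m2 ∧ m0 ≤ m4 - m3) ∨ 2 * m1 + m0 ≤ m4 ∨ m3 ≤ 2 * (m4 - m3)) :
    C * t ^ 8 ≤ m8 := by
  have u := root_lt ht h8
  have l := lt_root ht h8
  have t2 : t ^ 2 < 1.68 := by nlinarith
  have t2' : 1.664 < t ^ 2 := by nlinarith
  have t3 : t ^ 3 = t * t ^ 2 := by ring
  have t3u : t ^ 3 < 2.18 := by nlinarith
  have t4 : t ^ 4 = t ^ 2 * t ^ 2 := by ring
  have t4u : t ^ 4 < 2.83 := by nlinarith
  have t4l : 2.76 < t ^ 4 := by nlinarith
  have t3l : 2.14 < t ^ 3 := by nlinarith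
  by_cases E5 : m8 < m5 + m6
  · have f5 := e5 E5
    have f4 : m4 + m5 ≤ m7 := by
      by_contra hcon; push Not at hcon
      have := e4 hcon
      linarith
    by_cases E3 : m6 < m3 + m4
    · have f3 := e3 E3
      have f2 : m2 + m3 ≤ m5 := by
        by_contra hcon; push Not at hcon
        have := e2 hcon
        linarith
      by_cases B : m4 < m3 + m1
      · have p' := p E3 E5 B
        rcases p' with ⟨p1, p2⟩ | p3 | p4
        rotate_left
        · have key : C * t ^ 8 ≤ 4 * (C * t) + 2 * C + C * t ^ 2 := by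
            rw [h8]; nlinarith
          linarith
        · have key : C * t ^ 8 ≤ 3 * (C * t ^ 3) + C * t ^ 2 := by
            rw [h8]; nlinarith
          linarith
        by_cases E1 : m4 < m1 + m2
        · -- E at 1
          have f0 : m0 + m1 ≤ m3 := by
            by_contra hcon; push Not at hcon
            have := e0 hcon
            linarith
          have key : C * t ^ 8 ≤ 3 * (C * t) + 5 * C := by
            rw [h8]; nlinarith
          linarith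
        · push Not at E1
          have key : C * t ^ 8 ≤ 5 * (C * t) + 3 * C := by
            rw [h8]; nlinarith
          linarith
      · push Not at B
        have key : C * t ^ 8 ≤ 2 * (C * t ^ 3) + C * t ^ 2 + 2 * (C * t) := by
          rw [h8]; nlinarith
        linarith
    · push Not at E3
      by_cases E0 : m3 < m0 + m1
      · have f1 := e0 E0
        have key : C * t ^ 8 ≤ C * t ^ 3 + 2 * (C * t ^ 2) + 2 * (C * t) := by
          rw [h8]; nlinarith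
        linarith
      · push Not at E0
        have key : C * t ^ 8 = 2 * (C * t ^ 4) + C * t + C := by
          rw [h8]; ring
        linarith
  · push Not at E5
    have key : C * t ^ 8 ≤ C * t ^ 5 + C * t ^ 6 := by
      have h3 : t ^ 3 ≤ t + 1 := by nlinarith
      have h5 : C * t ^ 5 * t ^ 3 ≤ C * t ^ 5 * (t + 1) :=
        mul_le_mul_of_nonneg_left h3 (by positivity)
      calc C * t ^ 8 = C * t ^ 5 * t ^ 3 := by ring
        _ ≤ C * t ^ 5 * (t + 1) := h5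
        _ = C * t ^ 5 + C * t ^ 6 := by ring
    linarith

/-- The growth bound from the structure of two neighbouring bad exceptional steps. -/
theorem growth (hN : IsNorm N) (hΘ : Admissible Θ) {t : ℝ} (ht : 1 ≤ t)
    (h8 : t ^ 8 = 2 * t ^ 4 + t + 1)
    (P : ∀ z : ℕ → Pt 2, IsFrame N Θ z → ∀ i : ℕ,
      (z (i + 6)).1 < (z (i + 3)).1 + (z (i + 4)).1 →
      (z (i + 8)).1 < (z (i + 5)).1 + (z (i + 6)).1 →
      (z (i + 4)).1 < (z (i + 3)).1 + (z (i + 1)).1 →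
      ((z (i + 1)).1 + ((z (i + 4)).1 - (z (i + 3)).1) ≤ (z (i + 2)).1 ∧
        (z i).1 ≤ (z (i + 4)).1 - (z (i + 3)).1) ∨
      2 * (z (i + 1)).1 + (z i).1 ≤ (z (i + 4)).1 ∨
      (z (i + 3)).1 ≤ 2 * ((z (i + 4)).1 - (z (i + 3)).1)) :
    ENNReal.ofReal t ≤ G N Θ := by
  refine le_G_of_step hN hΘ ht 8 fun z hz c k hc hk ih => ?_
  obtain ⟨i, rfl⟩ : ∃ i, k = i + 8 := ⟨k - 8, by omega⟩
  have hI : ∀ j, j < 8 → c * t ^ i * t ^ j ≤ ((z (i + j)).1 : ℝ) := by
    intro j hj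
    have := ih (i + j) (by omega)
    rwa [pow_add, ← mul_assoc] at this
  have ex : ∀ j : ℕ, ((z (i + j + 3)).1 : ℝ) < (z (i + j)).1 + (z (i + j + 1)).1 →
      ((z (i + j + 3)).1 : ℝ) + (z (i + j)).1 = (z (i + j + 1)).1 + (z (i + j + 2)).1 := by
    intro j hj
    have hj' : (z (i + j + 3)).1 < (z (i + j)).1 + (z (i + j + 1)).1 := by exact_mod_cast hj
    have := hz.exceptional (i := i + j) (j := i + j + 1) (l := i + j + 2) (m := i + j + 3)
      (by omega) (by omega) (by omega) hj'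
    have h1 : (z (i + j)).1 + (z (i + j + 3)).1 = (z (i + j + 1)).1 + (z (i + j + 2)).1 :=
      congrArg Prod.fst this
    have h2 : (z (i + j + 3)).1 + (z (i + j)).1 = (z (i + j + 1)).1 + (z (i + j + 2)).1 := by
      linarith
    exact_mod_cast h2
  have nt : ∀ j : ℕ, ((z (i + j + 3)).1 : ℝ) < (z (i + j)).1 + (z (i + j + 1)).1 →
      ((z (i + j + 1)).1 : ℝ) + (z (i + j + 2)).1 ≤ (z (i + j + 4)).1 := by
    intro j hj
    have hj' : (z (i + j + 3)).1 < (z (i + j)).1 + (z (i + j + 1)).1 := by exact_mod_cast hj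
    exact_mod_cast hz.no_two (i + j) hj'
  have hP := P z hz i
  have hC : 0 < c * t ^ i := by positivity
  have key := growth_arith (m0 := ((z i).1 : ℝ)) (m1 := ((z (i + 1)).1 : ℝ))
    (m2 := ((z (i + 2)).1 : ℝ)) (m3 := ((z (i + 3)).1 : ℝ)) (m4 := ((z (i + 4)).1 : ℝ))
    (m5 := ((z (i + 5)).1 : ℝ)) (m6 := ((z (i + 6)).1 : ℝ)) (m7 := ((z (i + 7)).1 : ℝ))
    (m8 := ((z (i + 8)).1 : ℝ)) ht h8 hC
    (by simpa using hI 0 (by norm_num)) (by simpa using hI 1 (by norm_num))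
    (hI 2 (by norm_num)) (hI 3 (by norm_num)) (hI 4 (by norm_num)) (hI 5 (by norm_num))
    (hI 6 (by norm_num)) (nt 0) (nt 2) (ex 3) (nt 3) (nt 4) (ex 5)
    (fun a b c => by
      rcases hP (by exact_mod_cast a) (by exact_mod_cast b) (by exact_mod_cast c) with
        ⟨h1, h2⟩ | h3 | h4
      · left; exact ⟨by exact_mod_cast h1, by exact_mod_cast h2⟩
      · right; left; exact_mod_cast h3
      · right; right; exact_mod_cast h4)
  rw [pow_add, ← mul_assoc]
  exact key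

end Pool.Agent.Work.MP_7453a1_nt_h45
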