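import Pool.Agent.Work.MP_7453a1_nt_h45.Elim
import Pool.Agent.Work.MP_7453a1_nt_h45.Growth

set_option autoImplicit false

/-!
For every norm on the plane and every `Θ` satisfying (∗), `G(Θ) ≥ t` where `t⁸ = 2t⁴ + t + 1`.
-/

namespace Pool.Agent.Work.MP_7453a1_nt_h45

open Pool.Agent.Work.MP_7453a1_nt_norm Pool.Agent.Work.MP_7453a1_nt_h63 Filter
open scoped ENNReal

variable {N : Seminorm ℝ V} {Θ : V} {z : ℕ → Pt 2}

lemma IsFrame.shift (h : IsFrame N Θ z) (i : ℕ) : IsFrame N Θ (fun j => z (i + j)) where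
  pos k := h.pos _
  mono k l hkl := h.mono _ _ (by omega)
  anti k l hkl := h.anti _ _ (by omega)
  excl k w hw hq := h.excl (i + k) w hw hq

/-- The structure of two neighbouring bad exceptional steps. -/
theorem IsFrame.structure (h : IsFrame N Θ z) (E3 : (z 6).1 < (z 3).1 + (z 4).1)
    (E5 : (z 8).1 < (z 5).1 + (z 6).1) (B : (z 4).1 < (z 3).1 + (z 1).1)
    (A1 : (z 4).1 < 2 * (z 1).1 + (z 0).1) (A2 : 2 * ((z 4).1 - (z 3).1) < (z 3).1) :
    z 1 = z 2 - (z 4 - z 3) ∧ (z 0).1 ≤ (z 4 - z 3).1 := by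
  have m01 := h.mono 0 1 (by omega)
  have m12 := h.mono 1 2 (by omega)
  have m23 := h.mono 2 3 (by omega)
  have m34 := h.mono 3 4 (by omega)
  have m45 := h.mono 4 5 (by omega)
  have m56 := h.mono 5 6 (by omega)
  have m67 := h.mono 6 7 (by omega)
  have m78 := h.mono 7 8 (by omega)
  have p0 := h.pos 0
  have n01 := h.anti 0 1 (by omega)
  have n12 := h.anti 1 2 (by omega)
  have n23 := h.anti 2 3 (by omega)
  have n34 := h.anti 3 4 (by omega)
  have n45 := h.anti 4 5 (by omega)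
  have n56 := h.anti 5 6 (by omega)
  have n67 := h.anti 6 7 (by omega)
  have n78 := h.anti 7 8 (by omega)
  unfold er at n01 n12 n23 n34 n45 n56 n67 n78
  have x0 : ∀ w : Pt 2, w ≠ 0 → |w.1| < (z 1).1 → N (ev Θ (z 0)) ≤ N (ev Θ w) := h.excl 0
  have x1 : ∀ w : Pt 2, w ≠ 0 → |w.1| < (z 2).1 → N (ev Θ (z 1)) ≤ N (ev Θ w) := h.excl 1
  have x2 : ∀ w : Pt 2, w ≠ 0 → |w.1| < (z 3).1 → N (ev Θ (z 2)) ≤ N (ev Θ w) := h.excl 2
  have x3 : ∀ w : Pt 2, w ≠ 0 → |w.1| < (z 4).1 → N (ev Θ (z 3)) ≤ N (ev Θ w) := h.excl 3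
  have x5 : ∀ w : Pt 2, w ≠ 0 → |w.1| < (z 6).1 → N (ev Θ (z 5)) ≤ N (ev Θ w) := h.excl 5
  have e3 := h.exceptional (i := 3) (j := 4) (l := 5) (m := 6) (by omega) (by omega)
    (by omega) E3
  have e5 := h.exceptional (i := 5) (j := 6) (l := 7) (m := 8) (by omega) (by omega)
    (by omega) E5
  have f4 : (z 4).1 + (z 5).1 ≤ (z 7).1 := h.no_two 3 E3
  have f2 : (z 2).1 + (z 3).1 ≤ (z 5).1 := by
    by_contra hcon
    push Not at hcon
    have : (z 3).1 + (z 4).1 ≤ (z 6).1 := h.no_two 2 hcon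
    omega
  obtain ⟨D, hD⟩ : ∃ D, D = z 4 - z 3 := ⟨_, rfl⟩
  obtain ⟨u, hu⟩ : ∃ u, u = z 5 - z 3 := ⟨_, rfl⟩
  have h4 : z 4 = z 3 + D := by rw [hD]; abel
  have h5 : z 5 = z 3 + u := by rw [hu]; abel
  have h6 : z 6 = z 3 + u + D := by
    have : z 6 = z 4 + z 5 - z 3 := by rw [← e3]; abel
    rw [this, h4, h5]; abel
  have h8 : z 8 = z 7 + D := by
    have : z 8 = z 6 + z 7 - z 5 := by rw [← e5]; abel
    rw [this, h6, h5]; abel
  rw [← hD]
  have q4 : (z 4).1 = (z 3).1 + D.1 := by rw [h4]; rfl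
  have q5 : (z 5).1 = (z 3).1 + u.1 := by rw [h5]; rfl
  have q6 : (z 6).1 = (z 3).1 + u.1 + D.1 := by rw [h6]; rfl
  have q8 : (z 8).1 = (z 7).1 + D.1 := by rw [h8]; rfl
  have Dne : D ≠ 0 := by intro h0; rw [h0] at q4; simp at q4; omega
  have R : Rows N Θ D (z 3) (z 5) (z 7) := by
    refine ⟨by omega, by omega, by omega, by omega, by omega, by omega, ?_, ?_, ?_, ?_, ?_, ?_, ?_,
      ?_, ?_⟩
    · exact x3 D Dne (by rw [abs_lt]; constructor <;> omega)
    · rw [← map_add (ev Θ), ← h4]; exact n34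
    · rw [← map_add (ev Θ), ← h4]; exact n45
    · rw [← map_add (ev Θ), h5, ← h6, ← h5]; exact n56
    · rw [← map_add (ev Θ), h5, ← h6]; exact n67
    · rw [← map_add (ev Θ), ← h8]; exact n78
    · have k := map_sub_le_add N (ev Θ (z 8)) (ev Θ (z 7))
      rw [← map_sub (ev Θ), h8, add_sub_cancel_left, ← h8] at k
      linarith
    · intro w hw hq; exact x3 w hw (by rw [q4]; exact hq)
    · intro w hw hq; exact x5 w hw (by rw [q6, ← q5]; exact hq)
  have h7 : z 7 = z 3 + u + z 3 + D := by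
    rcases R.recur with r | r
    · exfalso
      have : (z 7).1 = (z 5).1 + (z 3).1 := by rw [r]; rfl
      omega
    · rw [r, h5]
  have raw : Raw N Θ D (z 2) u (z 3) := by
    refine ⟨by omega, by omega, by omega, by omega, by omega, ?_, ?_, ?_, ?_, ?_, ?_, ?_, ?_, ?_,
      ?_⟩
    · intro w hw hq; exact x2 w hw hq
    · intro w hw hq; exact x3 w hw (by rw [q4]; exact hq)
    · intro w hw hq
      rw [← map_add (ev Θ), ← h5]
      exact x5 w hw (by rw [q6]; exact hq)
    · have := x0 D Dne (by rw [abs_lt]; constructor <;> omega)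
      linarith
    · exact n23
    · rw [← map_add (ev Θ), ← h4]; exact n34
    · rw [← map_add (ev Θ), ← map_add (ev Θ), ← h4, ← h5]; exact n45
    · rw [← map_add (ev Θ), ← map_add (ev Θ), ← h6, ← h5]; exact n56
    · rw [← map_add (ev Θ), ← map_add (ev Θ), ← map_add (ev Θ), ← map_add (ev Θ), ← h7, ← h6]
      exact n67
    · rw [← map_add (ev Θ), ← map_add (ev Θ), ← map_add (ev Θ), ← map_add (ev Θ), ← h7, ← h8]
      exact n78
  have win : Win N Θ D (z 2) u (z 3) := by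
    refine ⟨raw, ?_, ?_⟩
    · rcases raw.z2_eq with r | r
      · left; exact r.symm
      · right; rw [r]; abel
    · rcases raw.z2_eq with r | r
      · rw [← map_sub (ev Θ), ← r]
        have := x1 (z 2 - D) (by
          intro h0
          have : (z 2 - D).1 = 0 := by rw [h0]; rfl
          simp only [Prod.fst_sub] at this
          omega) (by simp only [Prod.fst_sub]; rw [abs_lt]; constructor <;> omega)
        linarith
      · rw [← map_sub (ev Θ), ← r]; exact n23
  obtain ⟨r1, r2⟩ := win.first (y := z 1) (by omega) m12 (fun w hw hq => x1 w hw hq) n12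
    (x1 D Dne (by rw [abs_lt]; constructor <;> omega)) (by omega) (by omega)
  refine ⟨r2, ?_⟩
  have q1 : (z 1).1 = (z 2).1 - D.1 := by rw [r2]; rfl
  have r3 : ev Θ (z 2) - ev Θ D = ev Θ (z 1) := by rw [← map_sub (ev Θ), ← r2]
  exact win.second (y := z 0) (by omega) (by omega)
    (fun w hw hq => x0 w hw (by rw [q1]; exact hq))
    (by rw [r3]; exact n12) (by rw [r3]; exact n01)
    (x0 D Dne (by rw [abs_lt]; constructor <;> omega)) (by omega) p0 (by omega)

/-- For every norm on the plane and every `Θ` satisfying (∗), `G(Θ) ≥ t`, `t⁸ = 2t⁴ + t + 1`. -/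
theorem all_norms (hN : IsNorm N) (hΘ : Admissible Θ) {t : ℝ} (ht : 1 ≤ t)
    (h8 : t ^ 8 = 2 * t ^ 4 + t + 1) : ENNReal.ofReal t ≤ G N Θ := by
  refine growth hN hΘ ht h8 fun z hz i E3 E5 B => ?_
  by_cases A1 : (z (i + 4)).1 < 2 * (z (i + 1)).1 + (z i).1
  · by_cases A2 : 2 * ((z (i + 4)).1 - (z (i + 3)).1) < (z (i + 3)).1
    · left
      have k := (hz.shift i).structure E3 E5 B A1 A2
      obtain ⟨k1, k2⟩ := k
      have q1 : (z (i + 1)).1 = (z (i + 2)).1 - ((z (i + 4)).1 - (z (i + 3)).1) := by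
        have := congrArg Prod.fst k1
        simpa only [Prod.fst_sub] using this
      simp only [Prod.fst_sub, add_zero] at k2
      exact ⟨by omega, k2⟩
    · right; right; omega
  · right; left; omega

end Pool.Agent.Work.MP_7453a1_nt_h45
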