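import Pool.Agent.Work.MP_7453a1_nt_h45.Tall
import Pool.Agent.Work.MP_7453a1_nt_h63.NoFour

set_option autoImplicit false

/-!
Two neighbouring bad exceptional steps: the planar configuration in terms of error vectors.
-/

namespace Pool.Agent.Work.MP_7453a1_nt_h45

open Pool.Agent.Work.MP_7453a1_nt_norm Pool.Agent.Work.MP_7453a1_nt_h63

variable {N : Seminorm ℝ V}

/-- The seminorm in the coordinates `x`, `a + x / 2`, normalised by `N x`. -/
noncomputable def gg (N : Seminorm ℝ V) (x a : V) (X Y : ℝ) : ℝ :=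
  N (X • x + Y • (a + (1 / 2 : ℝ) • x)) / N x

lemma gauge_gg {x a : V} (hx : 0 < N x) : Gauge (gg N x a) where
  hom := by
    intro c X Y
    unfold gg
    rw [mul_smul, mul_smul, ← smul_add, map_smul_eq_mul, Real.norm_eq_abs]
    ring
  tri := by
    intro X Y X' Y'
    unfold gg
    rw [← add_div]
    refine div_le_div_of_nonneg_right ?_ hx.le
    rw [show (X + X') • x + (Y + Y') • (a + (1 / 2 : ℝ) • x)
      = (X • x + Y • (a + (1 / 2 : ℝ) • x)) + (X' • x + Y' • (a + (1 / 2 : ℝ) • x)) by module]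
    exact map_add_le_add N _ _
  one := by
    unfold gg
    rw [one_smul, zero_smul, add_zero, div_self hx.ne']

lemma gg_eq {x a v : V} {X Y : ℝ} (hv : v = X • x + Y • (a + (1 / 2 : ℝ) • x)) :
    gg N x a X Y = N v / N x := by rw [gg, hv]

/-- The planar configuration. -/
structure Conf (N : Seminorm ℝ V) (x e2 e3 e5 : V) : Prop where
  x0 : 0 < N x
  eq2 : e2 = e5 - e3
  s35 : det x e3 * det x e5 < 0
  m35 : |det x e5| < |det x e3|
  m57 : |det x (e5 + e3)| < |det x e5|
  l3 : N e3 < N x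
  l4 : N (e3 + x) < N e3
  l5 : N e5 < N (e3 + x)
  l6 : N (e5 + x) < N e5
  l7 : N (e5 + e3 + x) < N (e5 + x)
  l8 : N (e5 + e3 + x + x) < N (e5 + e3 + x)
  D : N x ≤ N (e5 + e3 + x) + N (e5 + e3 + x + x)
  lb : N e3 < N (e2 - x)
  l2 : (N e2 < N x ∧ N e3 < N e2) ∨ (N x ≤ N e2 ∧ N (e2 - x) < N x)

namespace Conf

variable {x e2 e3 e5 : V}

lemma det3 (c : Conf N x e2 e3 e5) : det x e3 ≠ 0 := by
  intro h
  have := c.s35
  rw [h, zero_mul] at this
  exact lt_irrefl _ this

/-- The coordinates. -/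
lemma base (c : Conf N x e2 e3 e5) : ∃ H β : ℝ, Base (gg N x e3) H β ∧
    e5 = (β - 1) • x + (-H) • (e3 + (1 / 2 : ℝ) • x) := by
  have h3 := c.det3
  have hx := c.x0
  obtain ⟨κ, hκ⟩ := exists_coord h3 e5
  have hs := c.s35
  have hm := c.m35
  have hm7 := c.m57
  set H : ℝ := -(det x e5 / det x e3) with hH
  have h5 : det x e5 = -H * det x e3 := by rw [hH]; field_simp
  have hpos : 0 < |det x e3| := abs_pos.mpr h3
  have hH0 : 0 < H := by
    rw [h5] at hs
    have h6 : det x e3 * (-H * det x e3) = -(H * (det x e3) ^ 2) := by ring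
    rw [h6] at hs
    have h7 : 0 < (det x e3) ^ 2 := by positivity
    by_contra hcon
    push Not at hcon
    have := mul_nonneg_of_nonpos_of_nonpos hcon (neg_nonpos.mpr h7.le)
    linarith
  have hH1 : H < 1 := by
    rw [h5, abs_mul, abs_neg, abs_of_pos hH0] at hm
    by_contra hcon
    push Not at hcon
    have := mul_le_mul_of_nonneg_right hcon hpos.le
    linarith
  have hH2 : 1 / 2 < H := by
    rw [det_add, h5, show -H * det x e3 + det x e3 = (1 - H) * det x e3 by ring, abs_mul,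
      abs_of_pos (a := 1 - H) (by linarith), abs_mul, abs_neg, abs_of_pos hH0] at hm7
    have := lt_of_mul_lt_mul_right hm7 hpos.le
    linarith
  have e5eq : e5 = (-H) • e3 + κ • x := by
    rw [hκ, hH]; simp
  refine ⟨H, κ + 1 + H / 2, ?_, ?_⟩
  · have hinv : 0 < (N x)⁻¹ := inv_pos.mpr hx
    have v2 : gg N x e3 (κ + 1 + H / 2 - 1 / 2) (-1 - H) = N e2 / N x :=
      gg_eq (by rw [c.eq2, e5eq]; module)
    have v3 : gg N x e3 (-1 / 2) 1 = N e3 / N x := gg_eq (by module)
    have v4 : gg N x e3 (1 / 2) 1 = N (e3 + x) / N x := gg_eq (by module)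
    have v5 : gg N x e3 (κ + 1 + H / 2 - 1) (-H) = N e5 / N x := gg_eq (by rw [e5eq]; module)
    have v6 : gg N x e3 (κ + 1 + H / 2) (-H) = N (e5 + x) / N x := gg_eq (by rw [e5eq]; module)
    have v7 : gg N x e3 (κ + 1 + H / 2 - 1 / 2) (1 - H) = N (e5 + e3 + x) / N x :=
      gg_eq (by rw [e5eq]; module)
    have v8 : gg N x e3 (κ + 1 + H / 2 + 1 / 2) (1 - H) = N (e5 + e3 + x + x) / N x :=
      gg_eq (by rw [e5eq]; module)
    have v1 : gg N x e3 (κ + 1 + H / 2 - 3 / 2) (-1 - H) = N (e2 - x) / N x :=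
      gg_eq (by rw [c.eq2, e5eq]; module)
    have b0 : Base0 (gg N x e3) H (κ + 1 + H / 2) := by
      refine ⟨gauge_gg hx, hH2, hH1, ?_, ?_, ?_, ?_, ?_, ?_, ?_, ?_⟩
      · rw [v3, div_lt_one hx]; exact c.l3
      · rw [v3, v4]; exact div_lt_div_of_pos_right c.l4 hx
      · rw [v4, v5]; exact div_lt_div_of_pos_right c.l5 hx
      · rw [v5, v6]; exact div_lt_div_of_pos_right c.l6 hx
      · rw [v6, v7]; exact div_lt_div_of_pos_right c.l7 hx
      · rw [v7, v8]; exact div_lt_div_of_pos_right c.l8 hx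
      · rw [v7, v8, ← add_div, le_div_iff₀ hx, one_mul]; exact c.D
      · rw [v1, v3]; exact div_lt_div_of_pos_right c.lb hx
    rcases c.l2 with ⟨h1, h2⟩ | ⟨h1, h2⟩
    · exact b0.alpha (by rw [v2, div_lt_one hx]; exact h1)
        (by rw [v2, v3]; exact div_lt_div_of_pos_right h2 hx)
    · exact b0.beta (by rw [v2, le_div_iff₀ hx, one_mul]; exact h1)
        (by rw [v1, div_lt_one hx]; exact h2)
  · rw [e5eq]; module

/-- No short vector lies far above the row of `e₃`. -/
theorem not_high (c : Conf N x e2 e3 e5) {y : V} (hy : N y ≤ N x) :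
    |det x y| ≤ 4 * |det x e3| := by
  obtain ⟨H, β, b, -⟩ := c.base
  have h3 := c.det3
  have hx := c.x0
  have key : ∀ y : V, N y ≤ N x → det x y / det x e3 ≤ 4 := by
    intro y hy
    obtain ⟨t, ht⟩ := exists_coord h3 y
    set s := det x y / det x e3
    by_contra hcon
    push Not at hcon
    have e : y = (t - s / 2) • x + s • (e3 + (1 / 2 : ℝ) • x) := by rw [ht]; module
    refine b.not_high hcon (X := t - s / 2) ?_
    rw [gg_eq e, div_le_one hx]; exact hy
  have h1 := key y hy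
  have h2 := key (-y) (by rw [map_neg_eq_map]; exact hy)
  rw [det_neg, neg_div] at h2
  have h4 : |det x y / det x e3| ≤ 4 := abs_le.mpr ⟨by linarith, h1⟩
  rw [abs_div, div_le_iff₀ (abs_pos.mpr h3)] at h4
  exact h4

/-- No short vector of the form `± (e₃ - e₂ + j x)`. -/
theorem not_lattice (c : Conf N x e2 e3 e5) (j : ℤ) :
    N x < N (e3 - e2 + (j : ℝ) • x) := by
  obtain ⟨H, β, b, e5eq⟩ := c.base
  have hx := c.x0
  by_contra hcon
  push Not at hcon
  refine b.not_lattice j ?_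
  rw [gg_eq (v := e3 - e2 + (j : ℝ) • x) (by rw [c.eq2, e5eq]; module), div_le_one hx]
  exact hcon

end Conf

end Pool.Agent.Work.MP_7453a1_nt_h45
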