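import Mathlib

set_option autoImplicit false

/-!
Geometry of four vectors in a normed plane with pairwise distances at least the radius.
-/

namespace Pool.Agent.Work.MP_7453a1_nt_h45

/-- The plane. -/
abbrev V : Type := Fin 2 → ℝ

/-- The determinant of two vectors of the plane. -/
def det (u v : V) : ℝ := u 0 * v 1 - u 1 * v 0

lemma det_anti (u v : V) : det u v = - det v u := by unfold det; ring

lemma det_pl (a b c d : V) : det a b * det c d - det a c * det b d + det a d * det b c = 0 := by
  unfold det; ring

/-- The linear relation between three vectors of the plane. -/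
lemma det_rel (a b c : V) : det a c • b = det b c • a + det a b • c := by
  ext i
  fin_cases i <;> simp [det] <;> ring

variable {N : Seminorm ℝ V}

lemma N_sub_smul {p q : ℝ} (hp : 0 ≤ p) (hq : 0 ≤ q) (x y : V) :
    N (p • x - q • y) ≤ p * N x + q * N y := by
  calc N (p • x - q • y) ≤ N (p • x) + N (q • y) := map_sub_le_add N _ _
    _ = p * N x + q * N y := by
      rw [map_smul_eq_mul, map_smul_eq_mul, Real.norm_of_nonneg hp, Real.norm_of_nonneg hq]

lemma N_add_smul {p q : ℝ} (hp : 0 ≤ p) (hq : 0 ≤ q) (x y : V) :
    N (p • x + q • y) ≤ p * N x + q * N y := by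
  calc N (p • x + q • y) ≤ N (p • x) + N (q • y) := map_add_le_add N _ _
    _ = p * N x + q * N y := by
      rw [map_smul_eq_mul, map_smul_eq_mul, Real.norm_of_nonneg hp, Real.norm_of_nonneg hq]

lemma mul_N {p : ℝ} (hp : 0 ≤ p) (x : V) : N (p • x) = p * N x := by
  rw [map_smul_eq_mul, Real.norm_of_nonneg hp]

/-- Step 1: a vector between two others, all in the ball of radius `r` with mutual distances at
least `r` and at most one on the sphere, is a combination with both coefficients above `1`. -/
lemma fact {r α β γ : ℝ} {a b c : V} (hα : 0 < α) (hβ : 0 ≤ β) (hγ : 0 ≤ γ)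
    (h : α • b = β • a + γ • c) (ha : N a ≤ r) (hb : N b ≤ r) (hc : N c ≤ r)
    (hab : N a < r ∨ N b < r) (hbc : N b < r ∨ N c < r) (hac : N a < r ∨ N c < r)
    (h1 : r ≤ N (b - a)) (h2 : r ≤ N (b - c)) : α < β ∧ α < γ := by
  have key1 : γ ≤ α → α * r ≤ (α - γ) * N c + β * N a := by
    intro hγα
    have e : α • (b - c) = β • a - (α - γ) • c := by
      rw [smul_sub, h, sub_smul]; abel
    have := N_sub_smul (N := N) hβ (sub_nonneg.mpr hγα) a c
    rw [← e, mul_N hα.le] at this
    nlinarith
  have key2 : β ≤ α → α * r ≤ (α - β) * N a + γ * N c := by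
    intro hβα
    have e : α • (b - a) = γ • c - (α - β) • a := by
      rw [smul_sub, h, sub_smul]; abel
    have := N_sub_smul (N := N) hγ (sub_nonneg.mpr hβα) c a
    rw [← e, mul_N hα.le] at this
    nlinarith
  have key3 : α < β → γ ≤ α → False := by
    intro hαβ hγα
    have e : β • (b - a) = (β - α) • b + γ • c := by
      have : β • a = α • b - γ • c := by rw [h]; abel
      rw [smul_sub, this, sub_smul]; abel
    have h3 := N_add_smul (N := N) (sub_nonneg.mpr hαβ.le) hγ b c
    rw [← e, mul_N (hα.le.trans hαβ.le)] at h3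
    have h4 : β * r ≤ β * N (b - a) := mul_le_mul_of_nonneg_left h1 (hα.le.trans hαβ.le)
    have h5 : γ * N c ≤ α * N c := mul_le_mul_of_nonneg_right hγα (apply_nonneg N c)
    rcases hbc with h6 | h6
    · have : (β - α) * N b < (β - α) * r := mul_lt_mul_of_pos_left h6 (sub_pos.mpr hαβ)
      nlinarith
    · have : α * N c < α * r := mul_lt_mul_of_pos_left h6 hα
      nlinarith
  have key4 : α < γ → β ≤ α → False := by
    intro hαγ hβα
    have e : γ • (b - c) = (γ - α) • b + β • a := by
      have : γ • c = α • b - β • a := by rw [h]; abel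
      rw [smul_sub, this, sub_smul]; abel
    have h3 := N_add_smul (N := N) (sub_nonneg.mpr hαγ.le) hβ b a
    rw [← e, mul_N (hα.le.trans hαγ.le)] at h3
    have h4 : γ * r ≤ γ * N (b - c) := mul_le_mul_of_nonneg_left h2 (hα.le.trans hαγ.le)
    have h5 : β * N a ≤ α * N a := mul_le_mul_of_nonneg_right hβα (apply_nonneg N a)
    rcases hab with h6 | h6
    · have : α * N a < α * r := mul_lt_mul_of_pos_left h6 hα
      nlinarith
    · have : (γ - α) * N b < (γ - α) * r := mul_lt_mul_of_pos_left h6 (sub_pos.mpr hαγ)
      nlinarith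
  rcases lt_or_ge α β with h3 | h3
  · rcases lt_or_ge α γ with h4 | h4
    · exact ⟨h3, h4⟩
    · exact (key3 h3 h4).elim
  · rcases lt_or_ge α γ with h4 | h4
    · exact (key4 h4 h3).elim
    · exfalso
      have h5 := key1 h4
      have h6 := key2 h3
      have h7 : α * N a + α * N c < α * r + α * r := by
        rcases hac with h8 | h8
        · have := mul_lt_mul_of_pos_left h8 hα
          have := mul_le_mul_of_nonneg_left hc hα.le
          linarith
        · have := mul_lt_mul_of_pos_left h8 hα
          have := mul_le_mul_of_nonneg_left ha hα.le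
          linarith
      nlinarith

/-- A vector `u` in the parallelogram of `x` and `y` splits the length. -/
lemma split {p q : ℝ} {x y u : V} (hp0 : 0 ≤ p) (hp1 : p ≤ 1) (hq0 : 0 ≤ q) (hq1 : q ≤ 1)
    (hu : u = p • x - q • y) {r : ℝ} (hr : r ≤ N u) : N (x - y - u) + r ≤ N x + N y := by
  have e : x - y - u = (1 - p) • x - (1 - q) • y := by
    rw [hu, sub_smul, sub_smul, one_smul, one_smul]; abel
  have h1 := N_sub_smul (N := N) (sub_nonneg.mpr hp1) (sub_nonneg.mpr hq1) x y
  have h2 := N_sub_smul (N := N) hp0 hq0 x y
  rw [← hu] at h2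
  rw [← e] at h1
  nlinarith

/-- Lemma P: four vectors in cyclic order around the origin. -/
lemma alternating {α β γ δ r : ℝ} {a b c d : V} (hα0 : 0 ≤ α) (hα1 : α < 1) (hαβ : α < β)
    (hγ0 : 0 ≤ γ) (hγ1 : γ < 1) (hγδ : γ < δ) (ha : a = α • b - β • c) (hd : d = γ • c - δ • b)
    (h1 : r ≤ N (a - b)) (h2 : r ≤ N (b - c)) (h3 : r ≤ N (c - d)) (h4 : r ≤ N (d - a)) :
    N (a + c - b - d) + r ≤ N a + N b ∨ N (a + c - b - d) + r ≤ N b + N c ∨
      N (a + c - b - d) + r ≤ N c + N d ∨ N (a + c - b - d) + r ≤ N d + N a := by
  have hβ : 0 < β := lt_of_le_of_lt hα0 hαβ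
  have hδ : 0 < δ := lt_of_le_of_lt hγ0 hγδ
  have hD : 0 < β * δ - α * γ := by nlinarith
  have h1' : r ≤ N (b - a) := by rwa [map_sub_rev]
  have h3' : r ≤ N (d - c) := by rwa [map_sub_rev]
  have h4' : r ≤ N (a - d) := by rwa [map_sub_rev]
  rcases le_total (δ * (β + γ - 1)) (γ * (α + δ - 1)) with hA | hA
  · rcases le_total 0 (α + δ - 1) with hP | hP
    · -- D3 : b - a = p c - q d
      right; right; left
      have hq1 : (1 - α) / δ ≤ 1 := by rw [div_le_one hδ]; linarith
      have hq0 : 0 ≤ (1 - α) / δ := div_nonneg (by linarith) hδ.le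
      have hp1 : β + γ * ((1 - α) / δ) ≤ 1 := by
        rw [← sub_nonneg]
        have : 1 - (β + γ * ((1 - α) / δ)) = (δ * (1 - β) - γ * (1 - α)) / δ := by
          field_simp; ring
        rw [this]
        exact div_nonneg (by nlinarith) hδ.le
      have hp0 : 0 ≤ β + γ * ((1 - α) / δ) := by positivity
      have hu : b - a = (β + γ * ((1 - α) / δ)) • c - ((1 - α) / δ) • d := by
        rw [ha, hd]
        have : (1 - α) / δ * δ = 1 - α := by field_simp
        ext i
        simp only [Pi.sub_apply, Pi.smul_apply, smul_eq_mul]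
        linear_combination (-(b i)) * this
      have := split (N := N) hp0 hp1 hq0 hq1 hu h1'
      rwa [show c - d - (b - a) = a + c - b - d by abel] at this
    · -- D2 : a - d = p b - q c
      right; left
      have hQ : β + γ ≤ 1 := by
        by_contra hcon
        push Not at hcon
        have : 0 < δ * (β + γ - 1) := mul_pos hδ (by linarith)
        have : γ * (α + δ - 1) ≤ 0 := mul_nonpos_of_nonneg_of_nonpos hγ0 hP
        linarith
      have hu : a - d = (α + δ) • b - (β + γ) • c := by
        rw [ha, hd]
        ext i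
        simp only [Pi.sub_apply, Pi.smul_apply, smul_eq_mul]
        ring
      have := split (N := N) (by linarith) (by linarith) (by linarith) hQ hu h4'
      rwa [show b - c - (a - d) = -(a + c - b - d) by abel, map_neg_eq_map] at this
  · rcases le_total (α * (β + γ - 1)) (β * (α + δ - 1)) with hB | hB
    · -- D1 : b - c = s a - t d
      right; right; right
      have hs0 : 0 ≤ (δ - γ) / (β * δ - α * γ) := div_nonneg (by linarith) hD.le
      have hs1 : (δ - γ) / (β * δ - α * γ) ≤ 1 := by rw [div_le_one hD]; nlinarith
      have ht0 : 0 ≤ (β - α) / (β * δ - α * γ) := div_nonneg (by linarith) hD.le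
      have ht1 : (β - α) / (β * δ - α * γ) ≤ 1 := by rw [div_le_one hD]; nlinarith
      have hsa : (δ - γ) / (β * δ - α * γ) * α + (β - α) / (β * δ - α * γ) * δ = 1 := by
        rw [div_mul_eq_mul_div, div_mul_eq_mul_div, ← add_div, div_eq_one_iff_eq hD.ne']
        ring
      have hsb : (δ - γ) / (β * δ - α * γ) * β + (β - α) / (β * δ - α * γ) * γ = 1 := by
        rw [div_mul_eq_mul_div, div_mul_eq_mul_div, ← add_div, div_eq_one_iff_eq hD.ne']
        ring
      have hu : b - c = ((δ - γ) / (β * δ - α * γ)) • a - ((β - α) / (β * δ - α * γ)) • d := by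
        rw [ha, hd]
        ext i
        simp only [Pi.sub_apply, Pi.smul_apply, smul_eq_mul]
        linear_combination (c i) * hsb - (b i) * hsa
      have := split (N := N) hs0 hs1 ht0 ht1 hu h2
      rw [show a - d - (b - c) = a + c - b - d by abel] at this
      linarith
    · rcases le_total 0 (β + γ - 1) with hQ | hQ
      · -- D4 : c - d = p b - q a
        left
        have hq1 : (1 - γ) / β ≤ 1 := by rw [div_le_one hβ]; linarith
        have hq0 : 0 ≤ (1 - γ) / β := div_nonneg (by linarith) hβ.le
        have hp1 : δ + α * ((1 - γ) / β) ≤ 1 := by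
          rw [← sub_nonneg]
          have : 1 - (δ + α * ((1 - γ) / β)) = (β * (1 - δ) - α * (1 - γ)) / β := by
            field_simp; ring
          rw [this]
          exact div_nonneg (by nlinarith) hβ.le
        have hp0 : 0 ≤ δ + α * ((1 - γ) / β) := by positivity
        have hu : c - d = (δ + α * ((1 - γ) / β)) • b - ((1 - γ) / β) • a := by
          rw [ha, hd]
          have : (1 - γ) / β * β = 1 - γ := by field_simp
          ext i
          simp only [Pi.sub_apply, Pi.smul_apply, smul_eq_mul]
          linear_combination (-(c i)) * this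
        have := split (N := N) hp0 hp1 hq0 hq1 hu h3
        rw [show b - a - (c - d) = -(a + c - b - d) by abel, map_neg_eq_map] at this
        linarith
      · -- D2 again
        right; left
        have hP : α + δ ≤ 1 := by
          by_contra hcon
          push Not at hcon
          have : 0 < β * (α + δ - 1) := mul_pos hβ (by linarith)
          have : α * (β + γ - 1) ≤ 0 := mul_nonpos_of_nonneg_of_nonpos hα0 hQ
          linarith
        have hu : a - d = (α + δ) • b - (β + γ) • c := by
          rw [ha, hd]
          ext i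
          simp only [Pi.sub_apply, Pi.smul_apply, smul_eq_mul]
          ring
        have := split (N := N) (by linarith) hP (by linarith) (by linarith) hu h4'
        rwa [show b - c - (a - d) = -(a + c - b - d) by abel, map_neg_eq_map] at this

end Pool.Agent.Work.MP_7453a1_nt_h45
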