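import Pool.Agent.Work.MP_7453a1_nt_h45.Pairs
import Pool.Agent.Work.MP_7453a1_nt_h45.Cmp

set_option autoImplicit false

/-!
Two neighbouring bad exceptional steps determine the two preceding vectors.
-/

namespace Pool.Agent.Work.MP_7453a1_nt_h45

open Pool.Agent.Work.MP_7453a1_nt_norm Pool.Agent.Work.MP_7453a1_nt_h63

variable {N : Seminorm ℝ V} {Θ : V}

/-- The vectors `z₂, z₃, z₄ = z₃ + D, z₅ = z₃ + u, z₆ = z₅ + D, z₇ = z₅ + z₄, z₈ = z₇ + D`. -/
structure Raw (N : Seminorm ℝ V) (Θ : V) (D z2 u z3 : Pt 2) : Prop where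
  d0 : 0 < D.1
  d2 : D.1 < z2.1
  q23 : z2.1 < z3.1
  qu2 : z2.1 ≤ u.1
  qu : u.1 < z3.1
  x2 : ∀ w : Pt 2, w ≠ 0 → |w.1| < z3.1 → N (ev Θ z2) ≤ N (ev Θ w)
  x3 : ∀ w : Pt 2, w ≠ 0 → |w.1| < z3.1 + D.1 → N (ev Θ z3) ≤ N (ev Θ w)
  x5 : ∀ w : Pt 2, w ≠ 0 → |w.1| < z3.1 + u.1 + D.1 → N (ev Θ z3 + ev Θ u) ≤ N (ev Θ w)
  l2 : N (ev Θ z2) < N (ev Θ D)
  l3 : N (ev Θ z3) < N (ev Θ z2)
  l4 : N (ev Θ z3 + ev Θ D) < N (ev Θ z3)
  l5 : N (ev Θ z3 + ev Θ u) < N (ev Θ z3 + ev Θ D)
  l6 : N (ev Θ z3 + ev Θ u + ev Θ D) < N (ev Θ z3 + ev Θ u)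
  l7 : N (ev Θ z3 + ev Θ u + ev Θ z3 + ev Θ D) < N (ev Θ z3 + ev Θ u + ev Θ D)
  l8 : N (ev Θ z3 + ev Θ u + ev Θ z3 + ev Θ D + ev Θ D)
    < N (ev Θ z3 + ev Θ u + ev Θ z3 + ev Θ D)

/-- The same, with the possible values of `z₂`. -/
structure Win (N : Seminorm ℝ V) (Θ : V) (D z2 u z3 : Pt 2) : Prop extends Raw N Θ D z2 u z3 where
  hu : u = z2 ∨ u = z2 + D
  lb : N (ev Θ z3) < N (ev Θ u - ev Θ D)

lemma ev_double (v : Pt 2) : N (ev Θ (v + v)) = 2 * N (ev Θ v) := by
  rw [map_add (ev Θ), ← two_smul ℝ, map_smul_eq_mul]; norm_num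

namespace Raw

variable {D z2 u z3 : Pt 2}

lemma nD (_h : Raw N Θ D z2 u z3) :
    N (ev Θ D) ≤ N (ev Θ z3 + ev Θ u + ev Θ z3 + ev Θ D)
      + N (ev Θ z3 + ev Θ u + ev Θ z3 + ev Θ D + ev Θ D) := by
  have := map_sub_le_add N (ev Θ z3 + ev Θ u + ev Θ z3 + ev Θ D + ev Θ D)
    (ev Θ z3 + ev Θ u + ev Θ z3 + ev Θ D)
  rw [show ev Θ z3 + ev Θ u + ev Θ z3 + ev Θ D + ev Θ D - (ev Θ z3 + ev Θ u + ev Θ z3 + ev Θ D)
    = ev Θ D by abel] at this
  linarith

lemma rows (h : Raw N Θ D z2 u z3) : Rows N Θ D z3 (z3 + u) (z3 + u + z3 + D) where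
  d0 := h.d0
  qa := by have := h.d0; have := h.d2; have := h.q23; omega
  qab := by simp only [Prod.fst_add]; have := h.d2; have := h.qu2; omega
  qbc := by
    simp only [Prod.fst_add]; have := h.d0; have := h.d2; have := h.q23; omega
  qb2 := by simp only [Prod.fst_add]; have := h.qu; omega
  qc2 := by simp only [Prod.fst_add]; have := h.d2; have := h.qu2; omega
  na := by have := h.l2; have := h.l3; linarith
  na1 := h.l4
  nb := by rw [map_add (ev Θ)]; exact h.l5
  nb1 := by rw [map_add (ev Θ)]; exact h.l6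
  nc := by
    rw [map_add (ev Θ), map_add (ev Θ), map_add (ev Θ)]; exact h.l7
  nc1 := by
    rw [map_add (ev Θ), map_add (ev Θ), map_add (ev Θ)]; exact h.l8
  nX := by
    rw [map_add (ev Θ), map_add (ev Θ), map_add (ev Θ)]
    have := h.nD; have := h.l8; linarith
  exa := h.x3
  exb := by
    intro w hw hq
    simp only [Prod.fst_add] at hq
    rw [map_add (ev Θ)]; exact h.x5 w hw hq

/-- `u` is not shorter than `z₂`. -/
lemma lu (h : Raw N Θ D z2 u z3) : N (ev Θ z2) ≤ N (ev Θ u) := by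
  have q0 := h.d0; have q1 := h.d2; have q2 := h.qu2; have q3 := h.qu
  exact h.x2 u (by intro h0; rw [h0] at q2; simp at q2; omega)
    (by rw [abs_lt]; constructor <;> omega)

lemma ku (h : Raw N Θ D z2 u z3) : N (ev Θ u + ev Θ D) < 2 * N (ev Θ z3) := by
  have k := map_sub_le_add N (ev Θ z3 + ev Θ u + ev Θ D) (ev Θ z3)
  rw [show ev Θ z3 + ev Θ u + ev Θ D - ev Θ z3 = ev Θ u + ev Θ D by abel] at k
  have := h.l4; have := h.l5; have := h.l6
  linarith

lemma ku' (h : Raw N Θ D z2 u z3) : N (ev Θ u - ev Θ D) < 2 * N (ev Θ z3) := by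
  have k := map_sub_le_add N (ev Θ z3 + ev Θ u) (ev Θ z3 + ev Θ D)
  rw [show ev Θ z3 + ev Θ u - (ev Θ z3 + ev Θ D) = ev Θ u - ev Θ D by abel] at k
  have := h.l4; have := h.l5
  linarith

end Raw

namespace Win

variable {D z2 u z3 : Pt 2}

/-- The planar configuration. -/
lemma conf (h : Win N Θ D z2 u z3) :
    Conf N (ev Θ D) (ev Θ u) (ev Θ z3) (ev Θ z3 + ev Θ u) where
  x0 := by
    have := h.l2; have := apply_nonneg N (ev Θ z2); linarith
  eq2 := by abel
  s35 := by have := h.rows.hab.1; rwa [map_add (ev Θ)] at this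
  m35 := by have := h.rows.hab.2; rwa [map_add (ev Θ)] at this
  m57 := by
    have := h.rows.hbc.2
    rw [map_add (ev Θ), map_add (ev Θ), map_add (ev Θ), det_add, det_self, add_zero] at this
    exact this
  l3 := by have := h.l2; have := h.l3; linarith
  l4 := h.l4
  l5 := h.l5
  l6 := h.l6
  l7 := h.l7
  l8 := h.l8
  D := h.nD
  lb := h.lb
  l2 := by
    have h1 := h.lu; have h2 := h.l3
    rcases lt_or_ge (N (ev Θ u)) (N (ev Θ D)) with h3 | h3
    · left; exact ⟨h3, by linarith⟩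
    · right
      refine ⟨h3, ?_⟩
      rcases h.hu with h4 | h4
      · exfalso; rw [h4] at h3; have := h.l2; linarith
      · rw [h4, map_add (ev Θ), add_sub_cancel_right]; exact h.l2

lemma det2 (h : Win N Θ D z2 u z3) : det (ev Θ D) (ev Θ u) = det (ev Θ D) (ev Θ z2) := by
  rcases h.hu with h4 | h4
  · rw [h4]
  · rw [h4, map_add (ev Θ), det_add, det_self, add_zero]

/-- No short vector of the form `± (z₃ - z₂ + j D)`. -/
lemma lattice (h : Win N Θ D z2 u z3) (j : ℤ) :
    N (ev Θ D) < N (ev Θ z3 - ev Θ z2 + (j : ℝ) • ev Θ D) := by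
  rcases h.hu with h4 | h4
  · have := h.conf.not_lattice j
    rwa [h4] at this
  · have := h.conf.not_lattice (j + 1)
    rw [h4, map_add (ev Θ)] at this
    rwa [show ev Θ z3 - (ev Θ z2 + ev Θ D) + ((j + 1 : ℤ) : ℝ) • ev Θ D
      = ev Θ z3 - ev Θ z2 + (j : ℝ) • ev Θ D by push_cast; module] at this

/-- The height of a short vector. -/
lemma tall (h : Win N Θ D z2 u z3) {y : Pt 2} (hd : D.1 < y.1) (hq : y.1 < z2.1)
    (hn : N (ev Θ y) ≤ N (ev Θ D)) : |det (ev Θ D) (ev Θ z3)| < |det (ev Θ D) (ev Θ y)| := by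
  by_contra hcon
  push Not at hcon
  obtain ⟨k, hk⟩ := row (N := N) h.conf.det3 hcon h.l4
  have hν := h.conf.x0
  have n1 := h.l2; have n2 := h.l3
  have b1 : |k| < 2 := by
    have e : ((k : ℤ) : ℝ) • ev Θ D = (ev Θ y + (k : ℝ) • ev Θ D) + -(ev Θ y) := by module
    have n := map_add_le_add N (ev Θ y + (k : ℝ) • ev Θ D) (-(ev Θ y))
    rw [← e, N_smul, N_neg] at n
    exact lt_of_abs_mul hν n (by push_cast; linarith)
  rw [abs_lt] at b1
  have hk' : k = -1 ∨ k = 0 ∨ k = 1 := by omega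
  have q1 := h.d0; have q2 := h.q23
  have e : (y + k • D).1 = y.1 + k * D.1 := by simp
  have := h.x3 (y + k • D) (by
    intro h0
    have h1 : (y + k • D).1 = 0 := by rw [h0]; rfl
    rw [e] at h1
    rcases hk' with rfl | rfl | rfl <;> omega) (by
    rw [e, abs_lt]
    rcases hk' with rfl | rfl | rfl <;> constructor <;> omega)
  rw [map_add (ev Θ), ev_zsmul] at this
  linarith

/-- The row lemma for half of `y - c`. -/
lemma half_row (h : Win N Θ D z2 u z3) {y w c : Pt 2} {τ : ℤ} (hn : N (ev Θ y) ≤ N (ev Θ D))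
    (hw : y = c + (w + w)) (hdet : |det (ev Θ D) (ev Θ y) - det (ev Θ D) (ev Θ c)|
      ≤ 2 * |det (ev Θ D) (ev Θ z3)|)
    (c1 : N (ev Θ c) < 2 * N (ev Θ D)) (c2 : N (ev Θ c + (τ : ℝ) • ev Θ D) < 2 * N (ev Θ D)) :
    ∃ k : ℤ, |2 * k| < 5 ∧ |2 * k + τ| < 5 ∧ N (ev Θ (w + k • D)) < N (ev Θ z3) := by
  have hν := h.conf.x0
  have hey : ev Θ y = ev Θ c + (ev Θ w + ev Θ w) := by
    rw [hw, map_add (ev Θ), map_add (ev Θ)]
  have hdw : |det (ev Θ D) (ev Θ w)| ≤ |det (ev Θ D) (ev Θ z3)| := by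
    rw [hey, det_add, det_add] at hdet
    rw [show det (ev Θ D) (ev Θ c) + (det (ev Θ D) (ev Θ w) + det (ev Θ D) (ev Θ w))
      - det (ev Θ D) (ev Θ c) = 2 * det (ev Θ D) (ev Θ w) by ring, abs_mul,
      abs_of_pos (a := (2 : ℝ)) (by norm_num)] at hdet
    linarith
  obtain ⟨k, hk⟩ := row (N := N) h.conf.det3 hdw h.l4
  have n1 := h.l2; have n2 := h.l3
  refine ⟨k, ?_, ?_, by rw [map_add (ev Θ), ev_zsmul]; exact hk⟩
  · have e : ((2 * k : ℤ) : ℝ) • ev Θ D = (ev Θ w + (k : ℝ) • ev Θ D) + (ev Θ w + (k : ℝ) • ev Θ D)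
        + -(ev Θ y) + ev Θ c := by rw [hey]; push_cast; module
    have n := N_add4 (N := N) (ev Θ w + (k : ℝ) • ev Θ D) (ev Θ w + (k : ℝ) • ev Θ D) (-(ev Θ y))
      (ev Θ c)
    rw [← e, N_smul, N_neg] at n
    exact lt_of_abs_mul hν n (by push_cast; linarith)
  · have e : ((2 * k + τ : ℤ) : ℝ) • ev Θ D = (ev Θ w + (k : ℝ) • ev Θ D)
        + (ev Θ w + (k : ℝ) • ev Θ D) + -(ev Θ y) + (ev Θ c + (τ : ℝ) • ev Θ D) := by
      rw [hey]; push_cast; module
    have n := N_add4 (N := N) (ev Θ w + (k : ℝ) • ev Θ D) (ev Θ w + (k : ℝ) • ev Θ D) (-(ev Θ y))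
      (ev Θ c + (τ : ℝ) • ev Θ D)
    rw [← e, N_smul, N_neg] at n
    exact lt_of_abs_mul hν n (by push_cast; linarith)

/-- A short vector is not congruent to `z₅` or `z₆` modulo two. -/
theorem no_class (h : Win N Θ D z2 u z3) {y : Pt 2} (hd : D.1 < y.1) (hq : y.1 < z2.1)
    (hn : N (ev Θ y) ≤ N (ev Θ D)) (h3 : 2 * D.1 < z3.1) (v : Pt 2) :
    y ≠ z2 + z3 + (v + v) ∧ y ≠ D + z2 + z3 + (v + v) := by
  have hc := h.conf
  have hν := hc.x0
  have ht := h.tall hd hq hn
  have hh := hc.not_high hn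
  have m35 := hc.m35
  have m57 := hc.m57
  have s35 := hc.s35
  have n1 := h.l2; have n2 := h.l3; have n3 := h.l4
  have q1 := h.d0; have q2 := h.q23
  have hdu := h.det2
  have lat := h.lattice
  set x := ev Θ D with hx
  -- heights
  have hdc : ∀ σ : ℝ, (σ = 1 ∨ σ = -1) →
      0 ≤ σ * (det x (ev Θ y) * det x (ev Θ z3)) →
      |det x (ev Θ y) - σ * det x (ev Θ z3 - ev Θ z2)| ≤ 2 * |det x (ev Θ z3)| := by
    intro σ hσ hs
    rw [det_sub]
    rw [det_add, det_add, hdu] at m57
    rw [det_add, hdu] at m35 s35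
    set a := det x (ev Θ z3)
    set b := det x (ev Θ z2)
    set c := det x (ev Θ y)
    have ha : a ≠ 0 := by
      intro h0; rw [h0, zero_mul] at s35; exact lt_irrefl _ s35
    rcases lt_or_gt_of_ne ha with ha | ha
    · have hb : 0 < a + b := by
        by_contra hcon; push Not at hcon
        have := mul_nonneg_of_nonpos_of_nonpos ha.le hcon
        linarith
      rw [abs_of_neg ha] at ht hh m35 ⊢
      rw [abs_of_pos hb] at m35 m57
      have m57' := abs_lt.mp m57
      rcases hσ with rfl | rfl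
      · have hc0 : c ≤ 0 := by
          by_contra hcon; push Not at hcon
          have := mul_neg_of_pos_of_neg hcon ha
          linarith
        rw [abs_of_nonpos hc0] at ht hh
        rw [abs_le]; constructor <;> linarith
      · have hc0 : 0 ≤ c := by
          by_contra hcon; push Not at hcon
          have := mul_pos_of_neg_of_neg hcon ha
          linarith
        rw [abs_of_nonneg hc0] at ht hh
        rw [abs_le]; constructor <;> linarith
    · have hb : a + b < 0 := by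
        by_contra hcon; push Not at hcon
        have := mul_nonneg ha.le hcon
        linarith
      rw [abs_of_pos ha] at ht hh m35 ⊢
      rw [abs_of_neg hb] at m35 m57
      have m57' := abs_lt.mp m57
      rcases hσ with rfl | rfl
      · have hc0 : 0 ≤ c := by
          by_contra hcon; push Not at hcon
          have := mul_neg_of_neg_of_pos hcon ha
          linarith
        rw [abs_of_nonneg hc0] at ht hh
        rw [abs_le]; constructor <;> linarith
      · have hc0 : c ≤ 0 := by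
          by_contra hcon; push Not at hcon
          have := mul_pos hcon ha
          linarith
        rw [abs_of_nonpos hc0] at ht hh
        rw [abs_le]; constructor <;> linarith
  -- norms of the targets
  have t1 : N (ev Θ z3 - ev Θ z2) < 2 * N x := by
    have := map_sub_le_add N (ev Θ z3) (ev Θ z2); linarith
  have t2 : N (ev Θ z3 - ev Θ z2 + x) < 2 * N x := by
    have := map_sub_le_add N (ev Θ z3 + x) (ev Θ z2)
    rw [show ev Θ z3 + x - ev Θ z2 = ev Θ z3 - ev Θ z2 + x by abel] at this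
    linarith
  -- conclusion from `w + k D = 0`
  have fin : ∀ (w c : Pt 2) (k : ℤ), y = c + (w + w) → w + k • D = 0 →
      ev Θ y = ev Θ c + ((-(2 * k) : ℤ) : ℝ) • x := by
    intro w c k hw h0
    have hwk : w = -(k • D) := eq_neg_of_add_eq_zero_left h0
    rw [hw, hwk, map_add (ev Θ), map_add (ev Θ), map_neg (ev Θ), ev_zsmul, ← hx]
    push_cast; module
  rcases le_total 0 (det x (ev Θ y) * det x (ev Θ z3)) with hs | hs
  · have hd1 := hdc 1 (Or.inl rfl) (by linarith)
    rw [one_mul] at hd1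
    constructor
    · intro hy
      obtain ⟨k, k1, k2, hk⟩ := h.half_row (y := y) (w := v + z2) (c := z3 - z2) (τ := 1) hn
        (by rw [hy]; abel) (by rw [map_sub (ev Θ)]; exact hd1)
        (by rw [map_sub (ev Θ)]; exact t1)
        (by rw [map_sub (ev Θ), Int.cast_one, one_smul]; exact t2)
      rw [abs_lt] at k1 k2
      have hk' : k = -2 ∨ k = -1 ∨ k = 0 ∨ k = 1 := by omega
      have qy : y.1 = z2.1 + z3.1 + (v.1 + v.1) := by rw [hy]; simp
      have e : (v + z2 + k • D).1 = v.1 + z2.1 + k * D.1 := by simp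
      have h0 : v + z2 + k • D = 0 := by
        by_contra hcon
        have := h.x3 _ hcon (by
          rw [e, abs_lt]
          rcases hk' with rfl | rfl | rfl | rfl <;> constructor <;> omega)
        linarith
      have f := fin (v + z2) (z3 - z2) k (by rw [hy]; abel) h0
      rw [map_sub (ev Θ)] at f
      have := lat (-(2 * k))
      rw [← f] at this
      linarith
    · intro hy
      obtain ⟨k, k1, k2, hk⟩ := h.half_row (y := y) (w := v + z2) (c := z3 - z2 + D) (τ := -1) hn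
        (by rw [hy]; abel)
        (by rw [map_add (ev Θ), map_sub (ev Θ), det_add, ← hx, det_self, add_zero]; exact hd1)
        (by rw [map_add (ev Θ), map_sub (ev Θ)]; exact t2)
        (by
          rw [map_add (ev Θ), map_sub (ev Θ), ← hx,
            show ev Θ z3 - ev Θ z2 + x + (((-1 : ℤ) : ℝ)) • x = ev Θ z3 - ev Θ z2 by
              push_cast; module]
          exact t1)
      rw [abs_lt] at k1 k2
      have hk' : k = -1 ∨ k = 0 ∨ k = 1 ∨ k = 2 := by omega
      have qy : y.1 = D.1 + z2.1 + z3.1 + (v.1 + v.1) := by rw [hy]; simp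
      have e : (v + z2 + k • D).1 = v.1 + z2.1 + k * D.1 := by simp
      have h0 : v + z2 + k • D = 0 := by
        by_contra hcon
        have := h.x3 _ hcon (by
          rw [e, abs_lt]
          rcases hk' with rfl | rfl | rfl | rfl <;> constructor <;> omega)
        linarith
      have f := fin (v + z2) (z3 - z2 + D) k (by rw [hy]; abel) h0
      rw [map_add (ev Θ), map_sub (ev Θ), ← hx] at f
      have := lat (-(2 * k) + 1)
      rw [show ev Θ z3 - ev Θ z2 + ((-(2 * k) + 1 : ℤ) : ℝ) • x = ev Θ y by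
        rw [f]; push_cast; module] at this
      linarith
  · have hd1 := hdc (-1) (Or.inr rfl) (by linarith)
    have hneg : det x (-(ev Θ z3 - ev Θ z2)) = -1 * det x (ev Θ z3 - ev Θ z2) := by
      rw [det_neg]; ring
    constructor
    · intro hy
      obtain ⟨k, k1, k2, hk⟩ := h.half_row (y := y) (w := v + z3) (c := -(z3 - z2)) (τ := -1) hn
        (by rw [hy]; abel)
        (by rw [map_neg (ev Θ), map_sub (ev Θ), ← hx, hneg]; exact hd1)
        (by rw [map_neg (ev Θ), map_sub (ev Θ), N_neg]; exact t1)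
        (by
          rw [map_neg (ev Θ), map_sub (ev Θ), ← hx,
            show -(ev Θ z3 - ev Θ z2) + (((-1 : ℤ) : ℝ)) • x = -(ev Θ z3 - ev Θ z2 + x) by
              push_cast; module, N_neg]
          exact t2)
      rw [abs_lt] at k1 k2
      have hk' : k = -1 ∨ k = 0 ∨ k = 1 ∨ k = 2 := by omega
      have qy : y.1 = z2.1 + z3.1 + (v.1 + v.1) := by rw [hy]; simp
      have e : (v + z3 + k • D).1 = v.1 + z3.1 + k * D.1 := by simp
      have h0 : v + z3 + k • D = 0 := by
        by_contra hcon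
        have := h.x3 _ hcon (by
          rw [e, abs_lt]
          rcases hk' with rfl | rfl | rfl | rfl <;> constructor <;> omega)
        linarith
      have f := fin (v + z3) (-(z3 - z2)) k (by rw [hy]; abel) h0
      rw [map_neg (ev Θ), map_sub (ev Θ)] at f
      have := lat (2 * k)
      rw [show ev Θ z3 - ev Θ z2 + ((2 * k : ℤ) : ℝ) • x = -(ev Θ y) by
        rw [f]; push_cast; module, N_neg] at this
      linarith
    · intro hy
      obtain ⟨k, k1, k2, hk⟩ := h.half_row (y := y) (w := v + z3 + D) (c := -(z3 - z2 + D)) (τ := 1)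
        hn (by rw [hy]; abel)
        (by rw [map_neg (ev Θ), map_add (ev Θ), map_sub (ev Θ), ← hx, det_neg, det_add, det_self,
              add_zero]
            rw [show -det x (ev Θ z3 - ev Θ z2) = -1 * det x (ev Θ z3 - ev Θ z2) by ring]
            exact hd1)
        (by rw [map_neg (ev Θ), map_add (ev Θ), map_sub (ev Θ), N_neg]; exact t2)
        (by
          rw [map_neg (ev Θ), map_add (ev Θ), map_sub (ev Θ), ← hx,
            show -(ev Θ z3 - ev Θ z2 + x) + (((1 : ℤ) : ℝ)) • x = -(ev Θ z3 - ev Θ z2) by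
              push_cast; module, N_neg]
          exact t1)
      rw [abs_lt] at k1 k2
      have hk' : k = -2 ∨ k = -1 ∨ k = 0 ∨ k = 1 := by omega
      have qy : y.1 = D.1 + z2.1 + z3.1 + (v.1 + v.1) := by rw [hy]; simp
      have e : (v + z3 + D + k • D).1 = v.1 + z3.1 + D.1 + k * D.1 := by simp
      have h0 : v + z3 + D + k • D = 0 := by
        by_contra hcon
        have := h.x3 _ hcon (by
          rw [e, abs_lt]
          rcases hk' with rfl | rfl | rfl | rfl <;> constructor <;> omega)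
        linarith
      have f := fin (v + z3 + D) (-(z3 - z2 + D)) k (by rw [hy]; abel) h0
      rw [map_neg (ev Θ), map_add (ev Θ), map_sub (ev Θ), ← hx] at f
      have := lat (2 * k + 1)
      rw [show ev Θ z3 - ev Θ z2 + ((2 * k + 1 : ℤ) : ℝ) • x = -(ev Θ y) by
        rw [f]; push_cast; module, N_neg] at this
      linarith

end Win

end Pool.Agent.Work.MP_7453a1_nt_h45
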