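import Pool.Agent.Work.MP_7453a1_nt_h45.Planar

set_option autoImplicit false

/-!
Planar part of the structure theorem for two neighbouring bad exceptional steps: no short vector is
far above the row of `e₃`, `e₄`.
-/

namespace Pool.Agent.Work.MP_7453a1_nt_h45

/-- A seminorm on `ℝ²` in coordinates, with the first unit vector of norm one. -/
structure Gauge (g : ℝ → ℝ → ℝ) : Prop where
  hom : ∀ c X Y : ℝ, g (c * X) (c * Y) = |c| * g X Y
  tri : ∀ X Y X' Y' : ℝ, g (X + X') (Y + Y') ≤ g X Y + g X' Y'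
  one : g 1 0 = 1

namespace Gauge

variable {g : ℝ → ℝ → ℝ}

lemma hull (h : Gauge g) (c p q : ℝ) {X Y X1 Y1 X2 Y2 : ℝ} (hX : c * X = p * X1 + q * X2)
    (hY : c * Y = p * Y1 + q * Y2) : |c| * g X Y ≤ |p| * g X1 Y1 + |q| * g X2 Y2 := by
  rw [← h.hom, ← h.hom, ← h.hom, hX, hY]
  exact h.tri _ _ _ _

lemma hull_one (h : Gauge g) (c p q : ℝ) {X1 Y1 X2 Y2 : ℝ} (hX : c = p * X1 + q * X2)
    (hY : 0 = p * Y1 + q * Y2) : |c| ≤ |p| * g X1 Y1 + |q| * g X2 Y2 := by
  have := h.hull c p q (X := 1) (Y := 0) (by rw [mul_one]; exact hX) (by rw [mul_zero]; exact hY)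
  rwa [h.one, mul_one] at this

/-- Combination with the first unit vector. -/
lemma hull_D (h : Gauge g) (c p q : ℝ) {X Y X1 Y1 : ℝ} (hX : c * X = p * X1 + q)
    (hY : c * Y = p * Y1) : |c| * g X Y ≤ |p| * g X1 Y1 + |q| := by
  have := h.hull c p q (X := X) (Y := Y) (X1 := X1) (Y1 := Y1) (X2 := 1) (Y2 := 0)
    (by rw [mul_one]; exact hX) (by rw [mul_zero, add_zero]; exact hY)
  rwa [h.one, mul_one] at this

lemma neg (h : Gauge g) (X Y : ℝ) : g (-X) (-Y) = g X Y := by
  have := h.hom (-1) X Y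
  rw [neg_one_mul, neg_one_mul, abs_neg, abs_one, one_mul] at this
  exact this

end Gauge

/-- The configuration of the vectors `e₃, …, e₈` (with `e₄ - e₃ = e₆ - e₅ = e₈ - e₇ = (1, 0)`). -/
structure Base0 (g : ℝ → ℝ → ℝ) (H β : ℝ) : Prop where
  gg : Gauge g
  H1 : 1 / 2 < H
  H2 : H < 1
  l3 : g (-1 / 2) 1 < 1
  l4 : g (1 / 2) 1 < g (-1 / 2) 1
  l5 : g (β - 1) (-H) < g (1 / 2) 1
  l6 : g β (-H) < g (β - 1) (-H)
  l7 : g (β - 1 / 2) (1 - H) < g β (-H)
  l8 : g (β + 1 / 2) (1 - H) < g (β - 1 / 2) (1 - H)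
  D : 1 ≤ g (β - 1 / 2) (1 - H) + g (β + 1 / 2) (1 - H)
  lb : g (-1 / 2) 1 < g (β - 3 / 2) (-1 - H)

/-- The facts about the parameters which are used to exclude short vectors of large height. -/
structure Base (g : ℝ → ℝ → ℝ) (H β : ℝ) : Prop extends Base0 g H β where
  L6 : g β (-H) < 5 / 6
  b2 : -(H ^ 2 / 8) < β
  bK : (1 - H) * H < 4 * (β + H - 1 / 2)
  b8 : 0 < 3 * β - 2 + 7 * H / 2
  j1 : ¬ g (1 - β) (2 + H) ≤ 1

namespace Base0

variable {g : ℝ → ℝ → ℝ} {H β : ℝ}

lemma half7 (b : Base0 g H β) : 1 / 2 < g (β - 1 / 2) (1 - H) := by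
  have := b.l8; have := b.D; linarith

/-- `D` in terms of `e₃` and `e₈`. -/
lemma D38 (b : Base0 g H β) :
    |1 + β - H / 2| ≤ g (β + 1 / 2) (1 - H) + (1 - H) * g (-1 / 2) 1 := by
  have := b.gg.hull_one (1 + β - H / 2) 1 (-(1 - H)) (X1 := β + 1 / 2) (Y1 := 1 - H)
    (X2 := -1 / 2) (Y2 := 1) (by ring) (by ring)
  rwa [abs_one, one_mul, abs_neg, abs_of_pos (a := 1 - H) (by linarith [b.H2])] at this

lemma beta_lt (b : Base0 g H β) : 2 * β < 1 - H := by
  by_contra hcon
  push Not at hcon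
  have H1 := b.H1
  have H2 := b.H2
  have h7 := b.half7
  have h8 := b.l8
  have l3 := b.l3
  have hB := b.D38
  have c0 : 0 < 1 + β - H / 2 := by linarith
  rw [abs_of_pos c0] at hB
  have hC := b.gg.hull (1 + β - H / 2) (β - H / 2) (1 - H) (X := β - 1 / 2) (Y := 1 - H)
    (X1 := β + 1 / 2) (Y1 := 1 - H) (X2 := -1 / 2) (Y2 := 1) (by ring) (by ring)
  rw [abs_of_pos c0, abs_of_pos (a := 1 - H) (by linarith)] at hC
  set L7 := g (β - 1 / 2) (1 - H)
  set L8 := g (β + 1 / 2) (1 - H)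
  set L3 := g (-1 / 2) 1
  rcases le_total β (H / 2) with hb | hb
  · rw [abs_of_nonpos (by linarith)] at hC
    have e1 : (1 + β - H / 2) * L8 < (1 + β - H / 2) * L7 := mul_lt_mul_of_pos_left h8 c0
    have e2 : (1 - H) * L3 < (1 - H) * 1 := mul_lt_mul_of_pos_left (by linarith) (by linarith)
    have e3 : (1 - H + 2 * β) * L8 < 1 - H := by nlinarith
    have e4 : 1 / 2 + β - (1 - H) / 2 < L8 := by linarith
    have e5 : (1 - H + 2 * β) * (1 / 2 + β - (1 - H) / 2) ≤ (1 - H + 2 * β) * L8 :=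
      mul_le_mul_of_nonneg_left e4.le (by linarith)
    have e6 : 2 * (1 - H) * (1 / 2) ≤ (1 - H + 2 * β) * (1 / 2 + β - (1 - H) / 2) :=
      mul_le_mul (by linarith) (by linarith) (by norm_num) (by linarith)
    linarith
  · rw [abs_of_nonneg (by linarith)] at hC
    have e1 : (β - H / 2) * L8 ≤ (β - H / 2) * L7 := mul_le_mul_of_nonneg_left h8.le (by linarith)
    have e2 : (1 - H) * L3 < (1 - H) * 1 := mul_lt_mul_of_pos_left (by linarith) (by linarith)
    nlinarith

/-- `D` in terms of `e₅` and `e₇`. -/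
lemma D57 (b : Base0 g H β) :
    1 - β - H / 2 ≤ (1 - H) * g (β - 1) (-H) + H * g (β - 1 / 2) (1 - H) := by
  have H1 := b.H1
  have H2 := b.H2
  have b1 := b.beta_lt
  have hD := b.gg.hull_one (1 - β - H / 2) (-(1 - H)) (-H) (X1 := β - 1) (Y1 := -H)
    (X2 := β - 1 / 2) (Y2 := 1 - H) (by ring) (by ring)
  rwa [abs_of_pos (a := 1 - β - H / 2) (by linarith), abs_neg, abs_neg,
    abs_of_pos (a := 1 - H) (by linarith), abs_of_pos (a := H) (by linarith)] at hD

section alpha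

lemma beta_pos (b : Base0 g H β) (l2 : g (β - 1 / 2) (-1 - H) < 1) : 0 < β := by
  by_contra hcon
  push Not at hcon
  have H1 := b.H1
  have H2 := b.H2
  have l3 := b.l3
  have l4 := b.l4
  have l5 := b.l5
  have l6 := b.l6
  have l7 := b.l7
  have hA := b.gg.hull (1 + H / 2 - β) (-(1 - H / 2 - β)) (-(H / 2 + β)) (X := 1 / 2) (Y := 1)
    (X1 := β - 1 / 2) (Y1 := -1 - H) (X2 := β - 1) (Y2 := -H) (by ring) (by ring)
  have hD := b.D57
  rw [abs_of_pos (a := 1 + H / 2 - β) (by linarith), abs_neg,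
    abs_of_pos (a := 1 - H / 2 - β) (by linarith), abs_neg] at hA
  set L2 := g (β - 1 / 2) (-1 - H)
  set L3 := g (-1 / 2) 1
  set L4 := g (1 / 2) 1
  set L5 := g (β - 1) (-H)
  set L6 := g β (-H)
  set L7 := g (β - 1 / 2) (1 - H)
  have d1 : (1 - H) * L5 < (1 - H) * L4 := mul_lt_mul_of_pos_left l5 (by linarith)
  have d2 : H * L7 < H * L4 := mul_lt_mul_of_pos_left (by linarith) (by linarith)
  have d3 : 1 - β - H / 2 < L4 := by linarith
  have a1 : (1 - H / 2 - β) * L2 < (1 - H / 2 - β) * 1 := mul_lt_mul_of_pos_left l2 (by linarith)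
  rcases le_total 0 (H / 2 + β) with hb | hb
  · rw [abs_of_nonneg hb] at hA
    have a2 : (H / 2 + β) * L5 ≤ (H / 2 + β) * L4 := mul_le_mul_of_nonneg_left l5.le hb
    have a3 : (1 - 2 * β) * L4 < 1 - H / 2 - β := by nlinarith
    have a4 : (1 - 2 * β) * (1 - β - H / 2) ≤ (1 - 2 * β) * L4 :=
      mul_le_mul_of_nonneg_left d3.le (by linarith)
    nlinarith
  · rw [abs_of_nonpos hb] at hA
    have a2 : -(H / 2 + β) * L5 ≤ -(H / 2 + β) * L4 :=
      mul_le_mul_of_nonneg_left l5.le (by linarith)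
    have a3 : (1 + H) * L4 < 1 - H / 2 - β := by nlinarith
    have a4 : (1 + H) * (1 - β - H / 2) ≤ (1 + H) * L4 :=
      mul_le_mul_of_nonneg_left d3.le (by linarith)
    nlinarith

lemma L6_lt (b : Base0 g H β) (l2 : g (β - 1 / 2) (-1 - H) < 1) :
    (1 + H / 2 - β) * g β (-H) < H := by
  have H1 := b.H1
  have H2 := b.H2
  have b1 := b.beta_lt
  have b2 := b.beta_pos l2
  have l3 := b.l3
  have h := b.gg.hull (1 + H / 2 - β) (H / 2 - β) (-(H / 2 + β)) (X := β) (Y := -H)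
    (X1 := β - 1 / 2) (Y1 := -1 - H) (X2 := -1 / 2) (Y2 := 1) (by ring) (by ring)
  rw [abs_of_pos (a := 1 + H / 2 - β) (by linarith), abs_of_pos (a := H / 2 - β) (by linarith),
    abs_neg, abs_of_pos (a := H / 2 + β) (by linarith)] at h
  have e1 : (H / 2 - β) * g (β - 1 / 2) (-1 - H) < (H / 2 - β) * 1 :=
    mul_lt_mul_of_pos_left l2 (by linarith)
  have e2 : (H / 2 + β) * g (-1 / 2) 1 < (H / 2 + β) * 1 :=
    mul_lt_mul_of_pos_left (by linarith) (by linarith)
  linarith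

lemma beta_gt (b : Base0 g H β) (l2 : g (β - 1 / 2) (-1 - H) < 1) : 1 - 3 * H / 2 < β := by
  have h := b.L6_lt l2
  have h1 := b.half7
  have h2 := b.l7
  have H1 := b.H1
  have b1 := b.beta_lt
  have H2 := b.H2
  have : (1 + H / 2 - β) * (1 / 2) < (1 + H / 2 - β) * g β (-H) :=
    mul_lt_mul_of_pos_left (by linarith) (by linarith)
  linarith

/-- The facts in the case where the vector `(β - 1 / 2, -1 - H)` is short. -/
theorem alpha (b : Base0 g H β) (l2 : g (β - 1 / 2) (-1 - H) < 1)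
    (l3' : g (-1 / 2) 1 < g (β - 1 / 2) (-1 - H)) : Base g H β := by
  have H1 := b.H1
  have H2 := b.H2
  have b1 := b.beta_lt
  have b2 := b.beta_pos l2
  have b3 := b.beta_gt l2
  have hL6 := b.L6_lt l2
  have h7 := b.half7
  have l6 := b.l6
  have l7 := b.l7
  refine ⟨b, ?_, by nlinarith, ?_, by linarith, ?_⟩
  · by_contra h
    push Not at h
    have : (1 + H / 2 - β) * (5 / 6) ≤ (1 + H / 2 - β) * g β (-H) :=
      mul_le_mul_of_nonneg_left h (by linarith)
    linarith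
  · rcases le_total (2 / 3) H with h | h
    · nlinarith
    · nlinarith
  · intro hy
    have h1 := b.gg.hull 2 1 (-1) (X := β - 1 / 2) (Y := -1 - H) (X1 := β) (Y1 := -H)
      (X2 := 1 - β) (Y2 := 2 + H) (by ring) (by ring)
    have h2 := b.gg.hull (2 + H / 2 - β) (-(H / 2 - β)) (-(H + 2 * β)) (X := β) (Y := -H)
      (X1 := 1 - β) (Y1 := 2 + H) (X2 := -1 / 2) (Y2 := 1)
      (by ring) (by ring)
    rw [abs_of_pos (a := (2 : ℝ)) (by norm_num), abs_one, one_mul, abs_neg, abs_one, one_mul] at h1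
    rw [abs_of_pos (a := 2 + H / 2 - β) (by linarith), abs_neg, abs_neg,
      abs_of_pos (a := H / 2 - β) (by linarith), abs_of_pos (a := H + 2 * β) (by linarith)] at h2
    have x1 : (H / 2 - β) * g (1 - β) (2 + H) ≤ (H / 2 - β) * 1 :=
      mul_le_mul_of_nonneg_left hy (by linarith)
    have x2 : (H + 2 * β) * g (-1 / 2) 1 ≤ (H + 2 * β) * ((1 + g β (-H)) / 2) :=
      mul_le_mul_of_nonneg_left (by linarith) (by linarith)
    have x3 : (2 - 2 * β) * g β (-H) ≤ H := by nlinarith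
    nlinarith

end alpha

lemma poly1 {H β : ℝ} (H1 : 1 / 2 < H) (H2 : H < 1) (b2 : -(H ^ 2 / 8) < β)
    (f2 : H * (2 - 11 * H / 4) < β * (2 + H - β)) : (1 - H) * H < 4 * (β + H - 1 / 2) := by
  by_contra hcon
  push Not at hcon
  rcases le_total (61 / 100) H with h | h
  · nlinarith
  · have hβ : 0 < β := by
      by_contra hneg
      push Not at hneg
      have h1 : β * (2 + H - β) ≤ 0 := mul_nonpos_of_nonpos_of_nonneg hneg (by linarith)
      have h2 : 0 < H * (2 - 11 * H / 4) := mul_pos (by linarith) (by linarith)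
      linarith
    have x0 : 0 < β * β := mul_pos hβ hβ
    have x1 : β * (2 + H - β) ≤ β * (2 + H) := mul_le_mul_of_nonneg_left (by linarith) hβ.le
    have x2 : 4 * β * (2 + H) ≤ ((1 - H) * H - 4 * (H - 1 / 2)) * (2 + H) :=
      mul_le_mul_of_nonneg_right (by linarith) (by linarith)
    have x3 : 0 < (H - 1 / 2) * (61 / 100 - H) ∨ H = 61 / 100 := by
      rcases h.lt_or_eq with h | h
      · left; exact mul_pos (by linarith) (by linarith)
      · right; exact h
    rcases x3 with x3 | x3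
    · nlinarith
    · rw [x3] at x2 x1 f2; norm_num at x2 x1 f2; linarith

lemma poly2 {H β : ℝ} (H1 : 1 / 2 < H) (H2 : H < 1) (b2 : -(H ^ 2 / 8) < β)
    (f2 : H * (2 - 11 * H / 4) < β * (2 + H - β)) : 0 < 3 * β - 2 + 7 * H / 2 := by
  by_contra hcon
  push Not at hcon
  rcases le_total (64 / 100) H with h | h
  · nlinarith
  · have hβ : 0 < β := by
      by_contra hneg
      push Not at hneg
      have h1 : β * (2 + H - β) ≤ 0 := mul_nonpos_of_nonpos_of_nonneg hneg (by linarith)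
      have h2 : 0 < H * (2 - 11 * H / 4) := mul_pos (by linarith) (by linarith)
      linarith
    have x1 : β * (2 + H - β) ≤ β * (2 + H) := mul_le_mul_of_nonneg_left (by linarith) hβ.le
    have x2 : 3 * β * (2 + H) ≤ (2 - 7 * H / 2) * (2 + H) :=
      mul_le_mul_of_nonneg_right (by linarith) (by linarith)
    nlinarith

/-- The facts in the case where the vector `(β - 1 / 2, -1 - H)` is long and
`(β - 3 / 2, -1 - H)` is short. -/
theorem beta (b : Base0 g H β) (lu : 1 ≤ g (β - 1 / 2) (-1 - H))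
    (l2 : g (β - 3 / 2) (-1 - H) < 1) : Base g H β := by
  have H1 := b.H1
  have H2 := b.H2
  have b1 := b.beta_lt
  have h7 := b.half7
  have l3 := b.l3
  have l4 := b.l4
  have l5 := b.l5
  have l6 := b.l6
  have l7 := b.l7
  have hD := b.D57
  have h4 := b.gg.hull (2 + H / 2 - β) (-1) (1 - H / 2 - β) (X := 1 / 2) (Y := 1)
    (X1 := β - 3 / 2) (Y1 := -1 - H) (X2 := -1 / 2) (Y2 := 1) (by ring) (by ring)
  have h6 := b.gg.hull (2 + H / 2 - β) (H / 2 - β) (-(3 * H / 2 + β)) (X := β) (Y := -H)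
    (X1 := β - 3 / 2) (Y1 := -1 - H) (X2 := -1 / 2) (Y2 := 1) (by ring) (by ring)
  have hj := b.gg.hull 2 1 (-1) (X := β - 1 / 2) (Y := -1 - H) (X1 := β) (Y1 := -H)
      (X2 := 1 - β) (Y2 := 2 + H) (by ring) (by ring)
  rw [abs_of_pos (a := (2 : ℝ)) (by norm_num), abs_one, one_mul, abs_neg, abs_one, one_mul] at hj
  set L2 := g (β - 3 / 2) (-1 - H)
  set L3 := g (-1 / 2) 1
  set L4 := g (1 / 2) 1
  set L5 := g (β - 1) (-H)
  set L6 := g β (-H)
  set L7 := g (β - 1 / 2) (1 - H)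
  have d1 : (1 - H) * L5 < (1 - H) * L4 := mul_lt_mul_of_pos_left l5 (by linarith)
  have d2 : H * L7 < H * L4 := mul_lt_mul_of_pos_left (by linarith) (by linarith)
  have d3 : 1 - β - H / 2 < L4 := by linarith
  have d4 : -(H / 2) < β := by linarith
  rw [abs_of_pos (a := 2 + H / 2 - β) (by linarith), abs_neg, abs_one, one_mul,
    abs_of_pos (a := 1 - H / 2 - β) (by linarith)] at h4
  rw [abs_of_pos (a := 2 + H / 2 - β) (by linarith), abs_of_pos (a := H / 2 - β) (by linarith),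
    abs_neg, abs_of_pos (a := 3 * H / 2 + β) (by linarith)] at h6
  have e4 : (2 + H / 2 - β) * L4 < 2 - H / 2 - β := by
    have : (1 - H / 2 - β) * L3 < (1 - H / 2 - β) * 1 := mul_lt_mul_of_pos_left l3 (by linarith)
    linarith
  have e6 : (2 + H / 2 - β) * L6 < 2 * H := by
    have x1 : (H / 2 - β) * L2 < (H / 2 - β) * 1 := mul_lt_mul_of_pos_left l2 (by linarith)
    have x2 : (3 * H / 2 + β) * L3 < (3 * H / 2 + β) * 1 :=
      mul_lt_mul_of_pos_left l3 (by linarith)
    linarith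
  have c0 : 0 < 2 + H / 2 - β := by linarith
  -- (1 - β - H/2) (2 + H/2 - β) < 2 - H/2 - β
  have f1 : (2 + H / 2 - β) * (1 - β - H / 2) < 2 - H / 2 - β :=
    lt_trans (mul_lt_mul_of_pos_left d3 c0) e4
  have b2 : -(H ^ 2 / 8) < β := by
    by_contra hcon
    push Not at hcon
    nlinarith
  -- β (2 + H - β) > H (2 - 11 H / 4)
  have f2 : H * (2 - 11 * H / 4) < β * (2 + H - β) := by
    have x1 : (1 - H) * ((2 + H / 2 - β) * L5) < (1 - H) * (2 - H / 2 - β) := by
      have : (2 + H / 2 - β) * L5 < (2 + H / 2 - β) * L4 := mul_lt_mul_of_pos_left l5 c0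
      exact mul_lt_mul_of_pos_left (by linarith) (by linarith)
    have x2 : H * ((2 + H / 2 - β) * L7) < H * (2 * H) := by
      have : (2 + H / 2 - β) * L7 < (2 + H / 2 - β) * L6 := mul_lt_mul_of_pos_left l7 c0
      exact mul_lt_mul_of_pos_left (by linarith) (by linarith)
    have x3 : (2 + H / 2 - β) * (1 - β - H / 2) ≤ (2 + H / 2 - β) * ((1 - H) * L5 + H * L7) :=
      mul_le_mul_of_nonneg_left hD c0.le
    nlinarith
  refine ⟨b, ?_, b2, ?_, ?_, ?_⟩
  · by_contra h
    push Not at h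
    have : (2 + H / 2 - β) * (5 / 6) ≤ (2 + H / 2 - β) * L6 :=
      mul_le_mul_of_nonneg_left h c0.le
    linarith
  · exact poly1 H1 H2 b2 f2
  · exact poly2 H1 H2 b2 f2
  · intro hy
    linarith

end Base0

namespace Base

variable {g : ℝ → ℝ → ℝ} {H β : ℝ}

/-- The slope of a short vector of height at least `2 + H` is bounded on the right. -/
lemma right (b : Base g H β) {X Y : ℝ} (hY : 2 + H ≤ Y) (hy : g X Y ≤ 1) :
    H * X - H < (1 / 2 - β) * Y := by
  have H1 := b.H1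
  have H2 := b.H2
  have b1 := b.beta_lt
  have h7 := b.half7
  have l6 := b.l6
  have l7 := b.l7
  have hL6 := b.L6
  have h5 := b.gg.hull_D Y (-H) (Y * (β - 1) + H * X) (X := β - 1) (Y := -H) (X1 := X) (Y1 := Y)
    (by ring) (by ring)
  have h6 := b.gg.hull_one (H * X + Y * β) H Y (X1 := X) (Y1 := Y) (X2 := β) (Y2 := -H)
    (by ring) (by ring)
  have hY0 : 0 < Y := by linarith
  rw [abs_of_pos hY0, abs_neg, abs_of_pos (a := H) (by linarith)] at h5
  rw [abs_of_pos hY0, abs_of_pos (a := H) (by linarith)] at h6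
  set L5 := g (β - 1) (-H)
  set L6 := g β (-H)
  have e0 : H * g X Y ≤ H * 1 := mul_le_mul_of_nonneg_left hy (by linarith)
  have e1 : Y * (1 / 2) < Y * L5 := mul_lt_mul_of_pos_left (by linarith) hY0
  by_contra hcon
  push Not at hcon
  rcases le_total (Y * (β - 1) + H * X) 0 with hc | hc
  · rw [abs_of_nonpos hc] at h5
    nlinarith
  · rw [abs_of_nonneg hc] at h5
    have e2 := le_abs_self (H * X + Y * β)
    -- 2 H > Y (3/2 - L6)
    have e3 : Y * (3 / 2 - L6) < 2 * H := by nlinarith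
    have e5 : (2 + H) * (2 / 3) ≤ Y * (3 / 2 - L6) := by
      apply mul_le_mul hY (by linarith) (by norm_num) hY0.le
    linarith

/-- No short vector has height greater than `4`. -/
theorem not_high (b : Base g H β) {X Y : ℝ} (hY : 4 < Y) (hy : g X Y ≤ 1) : False := by
  have H1 := b.H1
  have H2 := b.H2
  have b1 := b.beta_lt
  have bK := b.bK
  have b2 := b.b2
  have h7 := b.half7
  have l3 := b.l3
  have l4 := b.l4
  have l5 := b.l5
  have l6 := b.l6
  have l7 := b.l7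
  have hR := b.right (X := X) (Y := Y) (by linarith) hy
  have hY0 : 0 < Y := by linarith
  have h6 := b.gg.hull_D Y (-H) (Y * β + H * X) (X := β) (Y := -H) (X1 := X) (Y1 := Y)
    (by ring) (by ring)
  have h4 := b.gg.hull_D Y 1 (Y / 2 - X) (X := 1 / 2) (Y := 1) (X1 := X) (Y1 := Y)
    (by ring) (by ring)
  have h8 := b.gg.hull_D Y (1 - H) (Y * (β + 1 / 2) - (1 - H) * X) (X := β + 1 / 2) (Y := 1 - H)
    (X1 := X) (Y1 := Y) (by ring) (by ring)
  have h5 := b.gg.hull_one (H * X + Y * (β - 1)) H Y (X1 := X) (Y1 := Y) (X2 := β - 1) (Y2 := -H)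
    (by ring) (by ring)
  have hB := b.D38
  rw [abs_of_pos hY0, abs_neg, abs_of_pos (a := H) (by linarith)] at h6
  rw [abs_of_pos hY0, abs_one, one_mul] at h4
  rw [abs_of_pos hY0, abs_of_pos (a := 1 - H) (by linarith)] at h8
  rw [abs_of_pos hY0, abs_of_pos (a := H) (by linarith)] at h5
  rw [abs_of_pos (a := 1 + β - H / 2) (by nlinarith)] at hB
  set L3 := g (-1 / 2) 1
  set L4 := g (1 / 2) 1
  set L5 := g (β - 1) (-H)
  set L6 := g β (-H)
  set L7 := g (β - 1 / 2) (1 - H)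
  set L8 := g (β + 1 / 2) (1 - H)
  have e0 : H * g X Y ≤ H * 1 := mul_le_mul_of_nonneg_left hy (by linarith)
  have e0' : (1 - H) * g X Y ≤ (1 - H) * 1 := mul_le_mul_of_nonneg_left hy (by linarith)
  have f6 : Y * (1 / 2) < Y * L6 := mul_lt_mul_of_pos_left (by linarith) hY0
  have f4 : Y * (1 / 2) < Y * L4 := mul_lt_mul_of_pos_left (by linarith) hY0
  rcases le_total 0 (Y * β + H * X) with hc | hc
  · rw [abs_of_nonneg hc] at h6
    -- right side
    have r1 : Y * (1 / 2 - β) < H * X + H := by nlinarith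
    have r2 : Y - 1 < X := by
      rcases le_total 0 (Y / 2 - X) with h | h
      · exfalso
        rw [abs_of_nonneg h] at h4
        have x1 : X < 1 := by linarith
        have x2 : H * X < H := by nlinarith
        have x3 : 4 * (H / 2) < Y * (1 / 2 - β) := by nlinarith
        linarith
      · rw [abs_of_nonpos h] at h4
        linarith
    rcases le_total 0 (Y * (β + 1 / 2) - (1 - H) * X) with h | h
    · rw [abs_of_nonneg h] at h8
      have x1 : Y * (1 + β - H / 2) ≤ Y * (L8 + (1 - H) * L3) :=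
        mul_le_mul_of_nonneg_left hB hY0.le
      have x2 : (1 - H) * (Y / 2) ≤ (1 - H) * (1 - X + Y * L3) := by nlinarith
      have x3 : Y / 2 ≤ 1 - X + Y * L3 := le_of_mul_le_mul_left x2 (by linarith)
      have x4 : Y * L3 < Y * 1 := mul_lt_mul_of_pos_left (by linarith) hY0
      linarith
    · have x1 : H * (Y * (β + 1 / 2)) ≤ H * ((1 - H) * X) :=
        mul_le_mul_of_nonneg_left (by linarith) (by linarith)
      have x2 : (1 - H) * (H * X) < (1 - H) * (H + (1 / 2 - β) * Y) :=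
        mul_lt_mul_of_pos_left (by linarith) (by linarith)
      have x3 : Y * (β + H - 1 / 2) < (1 - H) * H := by nlinarith
      have x0 : 0 < β + H - 1 / 2 := by nlinarith
      have x4 : 4 * (β + H - 1 / 2) < Y * (β + H - 1 / 2) :=
        mul_lt_mul_of_pos_right hY x0
      linarith
  · rw [abs_of_nonpos hc] at h6
    have x1 := neg_abs_le (H * X + Y * (β - 1))
    have x2 : Y * L5 < Y * 1 := mul_lt_mul_of_pos_left (by linarith) hY0
    have x3 : H * X + Y * (β - 1) = H * X + Y * β - Y := by ring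
    linarith

/-- No short vector has the form `(j - β, 2 + H)`. -/
theorem not_lattice (b : Base g H β) (j : ℤ) (hy : g (j - β) (2 + H) ≤ 1) : False := by
  have H1 := b.H1
  have H2 := b.H2
  have b1 := b.beta_lt
  have b2 := b.b2
  have b8 := b.b8
  have h7 := b.half7
  have l3 := b.l3
  have l4 := b.l4
  have l5 := b.l5
  have l6 := b.l6
  have l7 := b.l7
  have lb := b.lb
  have hH2 : H ^ 2 < 1 := by nlinarith
  have hR := b.right (X := j - β) (Y := 2 + H) le_rfl hy
  have e0 : H * g (j - β) (2 + H) ≤ H * 1 := mul_le_mul_of_nonneg_left hy (by linarith)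
  have e0' : (1 - H) * g (j - β) (2 + H) ≤ (1 - H) * 1 := mul_le_mul_of_nonneg_left hy (by linarith)
  -- `D` in terms of `y` and `e₅`
  have h5 := b.gg.hull_one (H * (j - β) + (2 + H) * (β - 1)) H (2 + H) (X1 := j - β)
    (Y1 := 2 + H) (X2 := β - 1) (Y2 := -H) (by ring) (by ring)
  rw [abs_of_pos (a := H) (by linarith), abs_of_pos (a := 2 + H) (by linarith)] at h5
  have h5' := neg_abs_le (H * (j - β) + (2 + H) * (β - 1))
  have h5'' : (2 + H) * g (β - 1) (-H) < (2 + H) * 1 :=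
    mul_lt_mul_of_pos_left (by linarith) (by linarith)
  have hB := b.D38
  rw [abs_of_pos (a := 1 + β - H / 2) (by linarith)] at hB
  rcases (show j ≤ -2 ∨ j = -1 ∨ j = 0 ∨ j = 1 ∨ j = 2 ∨ j = 3 ∨ 4 ≤ j by omega)
    with h | h | h | h | h | h | h
  · -- j ≤ -2
    have hj : (j : ℝ) ≤ -2 := by exact_mod_cast h
    nlinarith
  · -- j = -1
    have hj : (j : ℝ) = -1 := by rw [h]; norm_num
    rw [hj] at hy hR e0 e0' h5 h5'
    have hb : 0 < β := by linarith
    have h1 := b.gg.hull_D (2 + H) (1 - H) (3 * β - 3 * H / 2) (X := β - 1 / 2) (Y := 1 - H)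
      (X1 := -1 - β) (Y1 := 2 + H) (by ring) (by ring)
    rw [abs_of_pos (a := 2 + H) (by linarith), abs_of_pos (a := 1 - H) (by linarith),
      abs_of_neg (a := 3 * β - 3 * H / 2) (by linarith)] at h1
    nlinarith
  · -- j = 0
    have hj : (j : ℝ) = 0 := by rw [h]; norm_num
    rw [hj] at hy hR e0 e0'
    have h1 := b.gg.hull_D (2 + H) (-H) (2 * β) (X := β) (Y := -H)
      (X1 := 0 - β) (Y1 := 2 + H) (by ring) (by ring)
    have h2 : |2 * β| ≤ 1 - H / 2 := by
      rw [abs_le]; constructor <;> nlinarith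
    rw [abs_of_pos (a := 2 + H) (by linarith), abs_neg, abs_of_pos (a := H) (by linarith)] at h1
    have h3 : (2 + H) * (1 / 2) < (2 + H) * g β (-H) :=
      mul_lt_mul_of_pos_left (by linarith) (by linarith)
    linarith
  · -- j = 1
    have hj : (j : ℝ) = 1 := by rw [h]; norm_num
    rw [hj] at hy
    exact b.j1 hy
  · -- j = 2
    have hj : (j : ℝ) = 2 := by rw [h]; norm_num
    rw [hj] at hy hR e0 e0'
    have c1 : 0 < 3 * β - 1 + 5 * H / 2 := by linarith
    have c2 : 0 < 5 * H + 6 * β - 2 := by linarith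
    have c3 : 0 < 4 * H + 4 * β - 2 := by
      rcases le_total 0 β with h | h
      · linarith
      · linarith
    have h1 := b.gg.hull_D (2 + H) (1 - H) (3 * β - 1 + 5 * H / 2) (X := β + 1 / 2) (Y := 1 - H)
      (X1 := 2 - β) (Y1 := 2 + H) (by ring) (by ring)
    have h2 := b.gg.hull (5 * H + 6 * β - 2) (-(4 * H + 4 * β - 2)) (-(2 - H - 2 * β))
      (X := β - 3 / 2) (Y := -1 - H) (X1 := 2 - β) (Y1 := 2 + H)
      (X2 := β + 1 / 2) (Y2 := 1 - H) (by ring) (by ring)
    rw [abs_of_pos (a := 2 + H) (by linarith), abs_of_pos (a := 1 - H) (by linarith),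
      abs_of_pos c1] at h1
    rw [abs_of_pos c2, abs_neg, abs_neg, abs_of_pos c3,
      abs_of_pos (a := 2 - H - 2 * β) (by linarith)] at h2
    set L3 := g (-1 / 2) 1
    set L8 := g (β + 1 / 2) (1 - H)
    set L1 := g (β - 3 / 2) (-1 - H)
    have x1 : (4 * H + 4 * β - 2) * g (2 - β) (2 + H) ≤ (4 * H + 4 * β - 2) * 1 :=
      mul_le_mul_of_nonneg_left hy c3.le
    have x2 : (5 * H + 6 * β - 2) * L3 < (5 * H + 6 * β - 2) * L1 :=
      mul_lt_mul_of_pos_left lb c2
    -- (2 + H) L8 ≤ U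
    have x3 : (2 + H) * L8 ≤ 3 * β + 3 * H / 2 := by linarith
    -- (1 - H) (2 + H) L3 ≥ ...
    have x4 : (1 - H) * ((2 + H) / 2 + 1 - β) ≤ (1 - H) * ((2 + H) * L3) := by
      have : (2 + H) * (1 + β - H / 2) ≤ (2 + H) * (L8 + (1 - H) * L3) :=
        mul_le_mul_of_nonneg_left hB (by linarith)
      nlinarith
    have x5 : (2 + H) / 2 + 1 - β ≤ (2 + H) * L3 := le_of_mul_le_mul_left x4 (by linarith)
    have x6 : (5 * H + 6 * β - 2) * ((2 + H) / 2 + 1 - β)
        ≤ (5 * H + 6 * β - 2) * ((2 + H) * L3) := mul_le_mul_of_nonneg_left x5 c2.le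
    have x7 : (2 - H - 2 * β) * ((2 + H) * L8) ≤ (2 - H - 2 * β) * (3 * β + 3 * H / 2) :=
      mul_le_mul_of_nonneg_left x3 (by linarith)
    have x8 : (2 + H) * ((5 * H + 6 * β - 2) * L3)
        < (2 + H) * ((4 * H + 4 * β - 2) + (2 - H - 2 * β) * L8) :=
      mul_lt_mul_of_pos_left (by linarith) (by linarith)
    have x9 : (2 + H) * ((5 * H + 6 * β - 2) * L3) = (5 * H + 6 * β - 2) * ((2 + H) * L3) := by
      ring
    have x10 : (2 + H) * ((4 * H + 4 * β - 2) + (2 - H - 2 * β) * L8)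
        = (2 + H) * (4 * H + 4 * β - 2) + (2 - H - 2 * β) * ((2 + H) * L8) := by ring
    have x11 : (5 * H + 6 * β - 2) * ((2 + H) / 2 + 1 - β)
        = (2 + H) * (4 * H + 4 * β - 2) + (2 - H - 2 * β) * (3 * β + 3 * H / 2) := by ring
    linarith
  · -- j = 3
    have hj : (j : ℝ) = 3 := by rw [h]; norm_num
    rw [hj] at hy hR e0 e0'
    have h1 := b.gg.hull_D (2 + H) (1 - H) (3 * β - 2 + 7 * H / 2) (X := β + 1 / 2) (Y := 1 - H)
      (X1 := 3 - β) (Y1 := 2 + H) (by ring) (by ring)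
    rw [abs_of_pos (a := 2 + H) (by linarith), abs_of_pos (a := 1 - H) (by linarith),
      abs_of_pos b8] at h1
    have x1 : (2 + H) * (1 + β - H / 2)
        ≤ (2 + H) * (g (β + 1 / 2) (1 - H) + (1 - H) * g (-1 / 2) 1) :=
      mul_le_mul_of_nonneg_left hB (by linarith)
    have x2 : (2 + H) * (1 - H) * g (-1 / 2) 1 < (2 + H) * (1 - H) * 1 :=
      mul_lt_mul_of_pos_left l3 (mul_pos (by linarith) (by linarith))
    have x3 : (2 + H) * (g (β + 1 / 2) (1 - H) + (1 - H) * g (-1 / 2) 1)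
        = (2 + H) * g (β + 1 / 2) (1 - H) + (2 + H) * (1 - H) * g (-1 / 2) 1 := by ring
    have x4 : 0 < (1 - H) * (1 - H / 2 - β) := mul_pos (by linarith) (by linarith)
    have x5 : (1 - H) * (1 - H / 2 - β) = (2 + H) * (1 + β - H / 2)
        - ((1 - H) + (3 * β - 2 + 7 * H / 2) + (2 + H) * (1 - H) * 1) := by ring
    linarith
  · -- j ≥ 4
    have hj : (4 : ℝ) ≤ j := by exact_mod_cast h
    nlinarith

end Base

end Pool.Agent.Work.MP_7453a1_nt_h45
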