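import Pool.Agent.Work.MP_7453a1_nt_h45.Planar

set_option autoImplicit false

/-!
Cyclic order of four vectors of the plane.
-/

namespace Pool.Agent.Work.MP_7453a1_nt_h45

/-- The tournament on four vertices given by six booleans. -/
def rel (x01 x02 x03 x12 x13 x23 : Bool) (i j : Fin 4) : Bool :=
  match i, j with
  | 0, 1 => x01
  | 1, 0 => !x01
  | 0, 2 => x02
  | 2, 0 => !x02
  | 0, 3 => x03
  | 3, 0 => !x03
  | 1, 2 => x12
  | 2, 1 => !x12
  | 1, 3 => x13
  | 3, 1 => !x13
  | 2, 3 => x23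
  | 3, 2 => !x23
  | _, _ => false

/-- Every tournament on four vertices is one of the four types. -/
lemma types : ∀ x01 x02 x03 x12 x13 x23 : Bool, ∃ a b c d : Fin 4,
    (a ≠ b ∧ a ≠ c ∧ a ≠ d ∧ b ≠ c ∧ b ≠ d ∧ c ≠ d) ∧
    (let r := rel x01 x02 x03 x12 x13 x23
     (r a b ∧ r a c ∧ r a d ∧ r b c ∧ r b d ∧ r c d) ∨
     (r a b ∧ r a c ∧ r a d ∧ r b c ∧ r c d ∧ r d b) ∨
     (r b a ∧ r c a ∧ r d a ∧ r b c ∧ r c d ∧ r d b) ∨
     (r a b ∧ r b c ∧ r c d ∧ r d a ∧ r a c ∧ r b d)) := by
  decide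

lemma types' (R : Fin 4 → Fin 4 → Prop) (hR : ∀ i j, i ≠ j → R i j ∨ R j i) :
    ∃ a b c d : Fin 4, (a ≠ b ∧ a ≠ c ∧ a ≠ d ∧ b ≠ c ∧ b ≠ d ∧ c ≠ d) ∧
    ((R a b ∧ R a c ∧ R a d ∧ R b c ∧ R b d ∧ R c d) ∨
     (R a b ∧ R a c ∧ R a d ∧ R b c ∧ R c d ∧ R d b) ∨
     (R b a ∧ R c a ∧ R d a ∧ R b c ∧ R c d ∧ R d b) ∨
     (R a b ∧ R b c ∧ R c d ∧ R d a ∧ R a c ∧ R b d)) := by
  classical
  have key : ∀ i j, i ≠ j → rel (decide (R 0 1)) (decide (R 0 2)) (decide (R 0 3))
      (decide (R 1 2)) (decide (R 1 3)) (decide (R 2 3)) i j = true → R i j := by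
    intro i j hij h
    fin_cases i <;> fin_cases j <;> simp [rel] at h hij ⊢ <;>
      first
        | exact h
        | exact (hR _ _ (by decide)).resolve_left h
  obtain ⟨a, b, c, d, hd, h⟩ := types (decide (R 0 1)) (decide (R 0 2)) (decide (R 0 3))
      (decide (R 1 2)) (decide (R 1 3)) (decide (R 2 3))
  refine ⟨a, b, c, d, hd, ?_⟩
  obtain ⟨hab, hac, had, hbc, hbd, hcd⟩ := hd
  rcases h with ⟨h1, h2, h3, h4, h5, h6⟩ | ⟨h1, h2, h3, h4, h5, h6⟩ | ⟨h1, h2, h3, h4, h5, h6⟩ |
    ⟨h1, h2, h3, h4, h5, h6⟩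
  · exact Or.inl ⟨key _ _ hab h1, key _ _ hac h2, key _ _ had h3, key _ _ hbc h4, key _ _ hbd h5,
      key _ _ hcd h6⟩
  · exact Or.inr (Or.inl ⟨key _ _ hab h1, key _ _ hac h2, key _ _ had h3, key _ _ hbc h4,
      key _ _ hcd h5, key _ _ hbd.symm h6⟩)
  · exact Or.inr (Or.inr (Or.inl ⟨key _ _ hab.symm h1, key _ _ hac.symm h2, key _ _ had.symm h3,
      key _ _ hbc h4, key _ _ hcd h5, key _ _ hbd.symm h6⟩))
  · exact Or.inr (Or.inr (Or.inr ⟨key _ _ hab h1, key _ _ hbc h2, key _ _ hcd h3,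
      key _ _ had.symm h4, key _ _ hac h5, key _ _ hbd h6⟩))

/-- Determinant conditions which hold for four vectors in the ball of radius `r` with mutual
distances at least `r`. -/
structure Good (v : Fin 4 → V) : Prop where
  fact : ∀ i j k, i ≠ j → j ≠ k → i ≠ k → 0 ≤ det (v i) (v j) → 0 ≤ det (v j) (v k) →
    0 < det (v i) (v k) → det (v i) (v k) < det (v j) (v k) ∧ det (v i) (v k) < det (v i) (v j)
  opp : ∀ i k l, i ≠ k → k ≠ l → i ≠ l → det (v i) (v k) = 0 → det (v i) (v l) * det (v k) (v l) < 0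

/-- Cyclic order. -/
lemma Good.cyclic {v : Fin 4 → V} (h : Good v) : ∃ a b c d : Fin 4,
    (a ≠ b ∧ a ≠ c ∧ a ≠ d ∧ b ≠ c ∧ b ≠ d ∧ c ≠ d) ∧
    0 ≤ det (v a) (v c) ∧ 0 ≤ det (v b) (v d) ∧ det (v a) (v c) < det (v b) (v c) ∧
    det (v a) (v c) < det (v a) (v b) ∧ det (v b) (v d) < det (v c) (v d) ∧
    det (v b) (v d) < det (v b) (v c) := by
  obtain ⟨a, b, c, d, hne, H⟩ := types' (fun i j => 0 ≤ det (v i) (v j)) (by
    intro i j _
    rcases le_total 0 (det (v i) (v j)) with h1 | h1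
    · exact Or.inl h1
    · right; rw [det_anti]; linarith)
  obtain ⟨hab, hac, had, hbc, hbd, hcd⟩ := hne
  have pl := det_pl (v a) (v b) (v c) (v d)
  rcases H with ⟨h1, h2, h3, h4, h5, h6⟩ | ⟨h1, h2, h3, h4, h5, h6⟩ | ⟨h1, h2, h3, h4, h5, h6⟩ |
    ⟨h1, h2, h3, h4, h5, h6⟩
  · -- transitive
    exfalso
    rcases h2.lt_or_eq with h2' | h2'
    · rcases h5.lt_or_eq with h5' | h5'
      · have f1 := h.fact a b c hab hbc hac h1 h4 h2'
        have f2 := h.fact b c d hbc hcd hbd h4 h6 h5'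
        have : det (v a) (v c) * det (v b) (v d) < det (v a) (v b) * det (v c) (v d) :=
          mul_lt_mul'' f1.2 f2.1 h2 h5
        have : 0 ≤ det (v a) (v d) * det (v b) (v c) := mul_nonneg h3 h4
        linarith
      · have := h.opp b d a hbd had.symm hab.symm h5'.symm
        rw [det_anti (v b) (v a), det_anti (v d) (v a)] at this
        nlinarith
    · have := h.opp a c d hac hcd had h2'.symm
      nlinarith
  · -- source
    exfalso
    have e1 : det (v b) (v d) = - det (v d) (v b) := det_anti _ _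
    rw [e1] at pl
    have p1 : 0 ≤ det (v a) (v b) * det (v c) (v d) := mul_nonneg h1 h5
    have p2 : 0 ≤ det (v a) (v c) * det (v d) (v b) := mul_nonneg h2 h6
    have p3 : 0 ≤ det (v a) (v d) * det (v b) (v c) := mul_nonneg h3 h4
    have q1 : det (v a) (v b) * det (v c) (v d) = 0 := by linarith
    have q2 : det (v a) (v c) * det (v d) (v b) = 0 := by linarith
    have q3 : det (v a) (v d) * det (v b) (v c) = 0 := by linarith
    have o1 : det (v a) (v b) ≠ 0 := fun h0 => by
      have := h.opp a b c hab hbc hac h0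
      nlinarith
    have o2 : det (v a) (v c) ≠ 0 := fun h0 => by
      have := h.opp a c d hac hcd had h0
      nlinarith
    have o3 : det (v a) (v d) ≠ 0 := fun h0 => by
      have := h.opp a d b had hbd.symm hab h0
      nlinarith
    have r1 := (mul_eq_zero.mp q1).resolve_left o1
    have r2 := (mul_eq_zero.mp q2).resolve_left o2
    have r3 := h.opp c d b hcd hbd.symm hbc.symm r1
    rw [r2, mul_zero] at r3
    exact lt_irrefl _ r3
  · -- sink
    exfalso
    have e1 : det (v b) (v d) = - det (v d) (v b) := det_anti _ _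
    have e2 : det (v a) (v b) = - det (v b) (v a) := det_anti _ _
    have e3 : det (v a) (v c) = - det (v c) (v a) := det_anti _ _
    have e4 : det (v a) (v d) = - det (v d) (v a) := det_anti _ _
    rw [e1, e2, e3, e4] at pl
    have p1 : 0 ≤ det (v b) (v a) * det (v c) (v d) := mul_nonneg h1 h5
    have p2 : 0 ≤ det (v c) (v a) * det (v d) (v b) := mul_nonneg h2 h6
    have p3 : 0 ≤ det (v d) (v a) * det (v b) (v c) := mul_nonneg h3 h4
    have q1 : det (v b) (v a) * det (v c) (v d) = 0 := by linarith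
    have q2 : det (v c) (v a) * det (v d) (v b) = 0 := by linarith
    have o1 : det (v b) (v a) ≠ 0 := fun h0 => by
      have := h.opp b a d hab.symm had hbd h0
      rw [e4, det_anti (v b) (v d)] at this
      nlinarith
    have o2 : det (v c) (v a) ≠ 0 := fun h0 => by
      have := h.opp c a b hac.symm hab hbc.symm h0
      rw [e2, det_anti (v c) (v b)] at this
      nlinarith
    have r1 := (mul_eq_zero.mp q1).resolve_left o1
    have r2 := (mul_eq_zero.mp q2).resolve_left o2
    have r3 := h.opp c d b hcd hbd.symm hbc.symm r1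
    rw [r2, mul_zero] at r3
    exact lt_irrefl _ r3
  · -- strong
    refine ⟨a, b, c, d, ⟨hab, hac, had, hbc, hbd, hcd⟩, h5, h6, ?_⟩
    have A : det (v a) (v c) < det (v b) (v c) ∧ det (v a) (v c) < det (v a) (v b) := by
      rcases h5.lt_or_eq with h5' | h5'
      · exact h.fact a b c hab hbc hac h1 h2 h5'
      · have := h.opp a c b hac hbc.symm hab h5'.symm
        rw [det_anti (v c) (v b)] at this
        rw [← h5']
        constructor
        · rcases h2.lt_or_eq with h | h
          · exact h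
          · rw [← h] at this; simp at this
        · rcases h1.lt_or_eq with h | h
          · exact h
          · rw [← h] at this; simp at this
    have B : det (v b) (v d) < det (v c) (v d) ∧ det (v b) (v d) < det (v b) (v c) := by
      rcases h6.lt_or_eq with h6' | h6'
      · exact h.fact b c d hbc hcd hbd h2 h3 h6'
      · have := h.opp b d c hbd hcd.symm hbc h6'.symm
        rw [det_anti (v d) (v c)] at this
        rw [← h6']
        constructor
        · rcases h3.lt_or_eq with h | h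
          · exact h
          · rw [← h] at this; simp at this
        · rcases h2.lt_or_eq with h | h
          · exact h
          · rw [← h] at this; simp at this
    exact ⟨A.1, A.2, B.1, B.2⟩

end Pool.Agent.Work.MP_7453a1_nt_h45
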